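import Pool.Agent.H79.TG.Pair

/-!
MP_887a8d_co.  The cells of a finite totally separable family, and the weighted area estimate.
-/

set_option autoImplicit false

namespace Pool.Agent.H79.TG

open MeasureTheory Real Metric Pool.Agent.H79.TS Filter Topology

variable {ι : Type*}

/-- the chosen separating lines -/
def Lines (c : ι → E) (r : ι → ℝ) (n : ι → ι → E) (t : ι → ι → ℝ) : Prop :=
  ∀ i j, i ≠ j → n i j ≠ 0 ∧ closedBall (c i) (r i) ⊆ {x | inner ℝ (n i j) x ≤ t i j} ∧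
    closedBall (c j) (r j) ⊆ {x | t i j ≤ inner ℝ (n i j) x} ∧
    ∀ l, closedBall (c l) (r l) ⊆ {x | inner ℝ (n i j) x ≤ t i j} ∨
      closedBall (c l) (r l) ⊆ {x | t i j ≤ inner ℝ (n i j) x}

theorem exists_lines {c : ι → E} {r : ι → ℝ} (h : TotSep c r) : ∃ n t, Lines c r n t := by
  have : ∀ i j, ∃ (n : E) (t : ℝ), i ≠ j → n ≠ 0 ∧ closedBall (c i) (r i) ⊆ {x | inner ℝ n x ≤ t} ∧
      closedBall (c j) (r j) ⊆ {x | t ≤ inner ℝ n x} ∧
      ∀ l, closedBall (c l) (r l) ⊆ {x | inner ℝ n x ≤ t} ∨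
        closedBall (c l) (r l) ⊆ {x | t ≤ inner ℝ n x} := by
    intro i j
    by_cases hij : i = j
    · exact ⟨0, 0, fun h => absurd hij h⟩
    · obtain ⟨n, t, h1⟩ := h.sep i j hij
      exact ⟨n, t, fun _ => h1⟩
  choose n t hnt using this
  exact ⟨n, t, hnt⟩

/-- the cell of the disc `i` in the family `S` -/
def cell (n : ι → ι → E) (t : ι → ι → ℝ) (S : Finset ι) (i : ι) : Set E :=
  {x | ∀ j ∈ S, j ≠ i → inner ℝ (n i j) x ≤ t i j ∧ t j i ≤ inner ℝ (n j i) x}

theorem cell_convex (n : ι → ι → E) (t : ι → ι → ℝ) (S : Finset ι) (i : ι) : Convex ℝ (cell n t S i) := by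
  intro x hx y hy a b ha hb hab j hj hji
  obtain ⟨h1, h2⟩ := hx j hj hji
  obtain ⟨h3, h4⟩ := hy j hj hji
  rw [inner_add_right, inner_smul_right, inner_smul_right, inner_add_right, inner_smul_right, inner_smul_right]
  constructor
  · calc a * inner ℝ (n i j) x + b * inner ℝ (n i j) y ≤ a * t i j + b * t i j :=
          add_le_add (mul_le_mul_of_nonneg_left h1 ha) (mul_le_mul_of_nonneg_left h3 hb)
      _ = t i j := by rw [← add_mul, hab, one_mul]
  · calc t j i = a * t j i + b * t j i := by rw [← add_mul, hab, one_mul]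
      _ ≤ a * inner ℝ (n j i) x + b * inner ℝ (n j i) y :=
          add_le_add (mul_le_mul_of_nonneg_left h2 ha) (mul_le_mul_of_nonneg_left h4 hb)

theorem cell_closed (n : ι → ι → E) (t : ι → ι → ℝ) (S : Finset ι) (i : ι) : IsClosed (cell n t S i) := by
  have : cell n t S i = ⋂ j, ⋂ (_ : j ∈ S), ⋂ (_ : j ≠ i),
      ({x | inner ℝ (n i j) x ≤ t i j} ∩ {x | t j i ≤ inner ℝ (n j i) x}) := by
    ext x
    simp only [cell, Set.mem_iInter, Set.mem_inter_iff, Set.mem_setOf_eq]
  rw [this]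
  refine isClosed_iInter fun j => isClosed_iInter fun _ => isClosed_iInter fun _ => ?_
  exact (isClosed_le (by fun_prop) continuous_const).inter (isClosed_le continuous_const (by fun_prop))

theorem ball_sub_cell {c : ι → E} {r : ι → ℝ} {n : ι → ι → E} {t : ι → ι → ℝ} (h : Lines c r n t)
    (S : Finset ι) (i : ι) : closedBall (c i) (r i) ⊆ cell n t S i := by
  intro x hx j _ hji
  exact ⟨(h i j hji.symm).2.1 hx, (h j i hji).2.2.1 hx⟩

theorem cell_aedisjoint {c : ι → E} {r : ι → ℝ} {n : ι → ι → E} {t : ι → ι → ℝ} (h : Lines c r n t)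
    {S : Finset ι} {i j : ι} (hi : i ∈ S) (hj : j ∈ S) (hij : i ≠ j) :
    AEDisjoint volume (cell n t S i) (cell n t S j) := by
  refine measure_mono_null ?_ (line_null (h i j hij).1 (t i j))
  rintro x ⟨hx, hy⟩
  exact le_antisymm (hx j hj hij.symm).1 (hy i hi hij).2

/-- two corner points in the cell -/
theorem corner_cell {c : ι → E} {r : ι → ℝ} (hr : ∀ i, 0 < r i) {n : ι → ι → E} {t : ι → ι → ℝ}
    (h : Lines c r n t) (S : Finset ι) {i j : ι} (hd : r i + r j ≤ dist (c i) (c j)) :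
    ∃ u v : E, ‖u‖ = 1 ∧ ‖v‖ = 1 ∧
      (r i ^ 2 + tau (dist (c i) (c j)) (r i) (r j) ^ 2) * inner ℝ u v ≤
        r i ^ 2 - tau (dist (c i) (c j)) (r i) (r j) ^ 2 ∧
      c i + √(r i ^ 2 + tau (dist (c i) (c j)) (r i) (r j) ^ 2) • u ∈ cell n t S i ∧
      c i + √(r i ^ 2 + tau (dist (c i) (c j)) (r i) (r j) ^ 2) • v ∈ cell n t S i := by
  obtain ⟨u, v, hu, hv, huv, hC⟩ := corner (hr i) (hr j) hd
  refine ⟨u, v, hu, hv, huv, ?_⟩
  have key : ∀ l, l ≠ i →
      (inner ℝ (n i l) (c i + √(r i ^ 2 + tau (dist (c i) (c j)) (r i) (r j) ^ 2) • u) ≤ t i l ∧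
        inner ℝ (n i l) (c i + √(r i ^ 2 + tau (dist (c i) (c j)) (r i) (r j) ^ 2) • v) ≤ t i l) ∧
      (t l i ≤ inner ℝ (n l i) (c i + √(r i ^ 2 + tau (dist (c i) (c j)) (r i) (r j) ^ 2) • u) ∧
        t l i ≤ inner ℝ (n l i) (c i + √(r i ^ 2 + tau (dist (c i) (c j)) (r i) (r j) ^ 2) • v)) := by
    intro l hl
    constructor
    · obtain ⟨h1, h2, _, h4⟩ := h i l hl.symm
      exact hC (n i l) (t i l) h1 h2 (h4 j)
    · obtain ⟨h1, _, h3, h4⟩ := h l i hl
      have h5 := hC (-(n l i)) (-(t l i)) (neg_ne_zero.2 h1)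
        (fun x hx => by
          have := h3 hx
          simp only [Set.mem_setOf_eq, inner_neg_left] at this ⊢
          linarith)
        (by
          rcases h4 j with h6 | h6
          · right
            intro x hx
            have := h6 hx
            simp only [Set.mem_setOf_eq, inner_neg_left] at this ⊢
            linarith
          · left
            intro x hx
            have := h6 hx
            simp only [Set.mem_setOf_eq, inner_neg_left] at this ⊢
            linarith)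
      rw [inner_neg_left, inner_neg_left] at h5
      exact ⟨by linarith [h5.1], by linarith [h5.2]⟩
  exact ⟨fun l _ hl => ⟨(key l hl).1.1, (key l hl).2.1⟩, fun l _ hl => ⟨(key l hl).1.2, (key l hl).2.2⟩⟩

theorem dist_ge {c : ι → E} {r : ι → ℝ} (hr : ∀ i, 0 < r i) {n : ι → ι → E} {t : ι → ι → ℝ}
    (h : Lines c r n t) {i j : ι} (hij : i ≠ j) : r i + r j ≤ dist (c i) (c j) := by
  obtain ⟨h1, h2, h3, _⟩ := h i j hij
  have e1 := ball_le h1 (hr i).le h2
  have e2 : inner ℝ (-(n i j)) (c j) + r j * ‖-(n i j)‖ ≤ -(t i j) := by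
    refine ball_le (neg_ne_zero.2 h1) (hr j).le ?_
    intro x hx
    have := h3 hx
    simp only [Set.mem_setOf_eq, inner_neg_left] at this ⊢
    linarith
  rw [inner_neg_left, norm_neg] at e2
  have e3 : (r i + r j) * ‖n i j‖ ≤ inner ℝ (n i j) (c j - c i) := by
    rw [inner_sub_right]; linarith
  have e4 : inner ℝ (n i j) (c j - c i) ≤ ‖n i j‖ * ‖c j - c i‖ := real_inner_le_norm _ _
  rw [dist_comm, dist_eq_norm]
  have h5 : 0 < ‖n i j‖ := norm_pos_iff.2 h1
  have e5 : (r i + r j) * ‖n i j‖ ≤ ‖c j - c i‖ * ‖n i j‖ := by linarith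
  exact le_of_mul_le_mul_right e5 h5

/-- the area of the (truncated) cell -/
theorem cell_area {c : ι → E} {r : ι → ℝ} (hr : ∀ i, 0 < r i) {n : ι → ι → E} {t : ι → ι → ℝ}
    (h : Lines c r n t) (S : Finset ι) (i : ι) {L : ℝ} (hL : 0 < L) :
    ∃ Y : ℝ, 0 ≤ Y ∧ Y ≤ L ∧
      (∀ j ∈ S, j ≠ i → min L (tau (dist (c i) (c j)) (r i) (r j) / r i) ≤ Y) ∧
      ENNReal.ofReal (r i ^ 2 * (π + 2 * (Y - arctan Y))) ≤
        volume (cell n t S i ∩ closedBall (c i) ((1 + L) * r i)) := by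
  classical
  have hKr : closedBall (c i) (r i) ⊆ closedBall (c i) ((1 + L) * r i) :=
    closedBall_subset_closedBall (by nlinarith [hr i])
  by_cases hne : (S.erase i).Nonempty
  · obtain ⟨j, hj, hmax⟩ := Finset.exists_max_image (S.erase i)
      (fun j => min L (tau (dist (c i) (c j)) (r i) (r j) / r i)) hne
    have hji : j ≠ i := Finset.ne_of_mem_erase hj
    have hd := dist_ge hr h hji.symm
    obtain ⟨ht0, _, _⟩ := tau_facts (hr i) (hr j) hd
    set τ := tau (dist (c i) (c j)) (r i) (r j) with hτ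
    set Y := min L (τ / r i) with hY
    have hτr : 0 < τ / r i := div_pos ht0 (hr i)
    have hY0 : 0 < Y := lt_min hL hτr
    refine ⟨Y, hY0.le, min_le_left _ _, fun l hl hli => hmax l (Finset.mem_erase.2 ⟨hli, hl⟩), ?_⟩
    obtain ⟨u, v, hu, hv, huv, hq, hq'⟩ := corner_cell hr h S (i := i) (j := j) hd
    rw [← hτ] at huv hq hq'
    have hYτ : Y * r i ≤ τ := by
      have := min_le_right L (τ / r i)
      rwa [← hY, le_div_iff₀ (hr i)] at this
    have hsq : r i * √(1 + Y ^ 2) ≤ √(r i ^ 2 + τ ^ 2) := by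
      apply Real.le_sqrt_of_sq_le
      rw [mul_pow, Real.sq_sqrt (by positivity)]
      have : (Y * r i) ^ 2 ≤ τ ^ 2 := pow_le_pow_left₀ (by have := hr i; positivity) hYτ 2
      nlinarith
    have hin : ∀ w : E, ‖w‖ = 1 → c i + √(r i ^ 2 + τ ^ 2) • w ∈ cell n t S i →
        c i + (r i * √(1 + Y ^ 2)) • w ∈ cell n t S i ∩ closedBall (c i) ((1 + L) * r i) := by
      intro w hw hw2
      have hs : 0 < √(r i ^ 2 + τ ^ 2) := Real.sqrt_pos.2 (by positivity)
      refine ⟨?_, ?_⟩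
      · have hc := cell_convex n t S i (ball_sub_cell h S i (mem_closedBall_self (hr i).le)) hw2
          (show 0 ≤ 1 - r i * √(1 + Y ^ 2) / √(r i ^ 2 + τ ^ 2) by
            rw [sub_nonneg, div_le_one hs]; exact hsq)
          (show 0 ≤ r i * √(1 + Y ^ 2) / √(r i ^ 2 + τ ^ 2) by have := hr i; positivity) (by ring)
        have e1 : (1 - r i * √(1 + Y ^ 2) / √(r i ^ 2 + τ ^ 2)) • c i +
            (r i * √(1 + Y ^ 2) / √(r i ^ 2 + τ ^ 2)) • (c i + √(r i ^ 2 + τ ^ 2) • w) =
            c i + (r i * √(1 + Y ^ 2)) • w := by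
          rw [smul_add, smul_smul, div_mul_cancel₀ _ hs.ne', sub_smul, one_smul]
          abel
        rwa [e1] at hc
      · rw [mem_closedBall, dist_eq_norm, add_sub_cancel_left, norm_smul, hw, mul_one, Real.norm_eq_abs,
          abs_of_nonneg (by have := hr i; positivity), mul_comm]
        refine mul_le_mul_of_nonneg_right ?_ (hr i).le
        rw [Real.sqrt_le_left (by linarith)]
        have : Y ^ 2 ≤ L ^ 2 := pow_le_pow_left₀ hY0.le (min_le_left _ _) 2
        nlinarith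
    exact ear ((cell_convex n t S i).inter (convex_closedBall _ _)) hu hv (hr i) ht0
      (Set.subset_inter (ball_sub_cell h S i) hKr) hY0 hYτ (hin u hu hq) (hin v hv hq') huv
  · refine ⟨0, le_rfl, hL.le, ?_, ?_⟩
    · intro j hj hji
      exact absurd ⟨j, Finset.mem_erase.2 ⟨hji, hj⟩⟩ hne
    · rw [Real.arctan_zero, sub_zero, mul_zero, add_zero, mul_comm, ← vol_cb (c i) (hr i).le]
      exact measure_mono (Set.subset_inter (ball_sub_cell h S i) hKr)

theorem arctan_le {y : ℝ} (hy : 0 ≤ y) : arctan y ≤ y := by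
  have h1 : 0 ≤ arctan y := Real.arctan_nonneg.2 hy
  have h2 := Real.le_tan h1 (Real.arctan_lt_pi_div_two y)
  rwa [Real.tan_arctan] at h2

/-- the weighted area estimate for finite families -/
theorem finite_bound {c : ι → E} {r : ι → ℝ} (hr : ∀ i, 0 < r i) {n : ι → ι → E} {t : ι → ι → ℝ}
    (h : Lines c r n t) {L T : ℝ} (hL : 0 < L) {m : ℕ} (lam : Fin m → ℝ) (N : Fin m → ℝ → ℝ)
    (hlam : ∀ k, 0 ≤ lam k) (hlam1 : ∑ k, lam k ≤ 1)
    (hN0 : ∀ k y, 0 ≤ y → 0 ≤ N k y) (hN1 : ∀ k y, 0 ≤ y → N k y ≤ 1 + L)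
    (hpair : ∀ k (ρ s d Y₁ Y₂ : ℝ), 0 < ρ → 0 < s → ρ + s ≤ d → 0 ≤ Y₁ → 0 ≤ Y₂ →
      min L (tau d ρ s / ρ) ≤ Y₁ → min L (tau d ρ s / s) ≤ Y₂ →
      N k Y₁ = 0 ∨ N k Y₂ = 0 ∨ ρ * N k Y₁ + s * N k Y₂ ≤ d)
    (hbr : ∀ y, 0 ≤ y → y ≤ L → T * π ≤ (1 - ∑ k, lam k) * (π + 2 * (y - arctan y)) +
      ∑ k, lam k * (π * N k y ^ 2))
    (S : Finset ι) {R : ℝ} (hR : 0 ≤ R)
    (hSR : ∀ i ∈ S, closedBall (c i) ((1 + L) * r i) ⊆ closedBall 0 R) :
    T * ∑ i ∈ S, r i ^ 2 ≤ R ^ 2 := by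
  classical
  have hpi := Real.pi_pos
  choose Y hY0 hYL hYm hYA using fun i => cell_area hr h S i hL
  -- the cells
  have h1 : ∑ i ∈ S, r i ^ 2 * (π + 2 * (Y i - arctan (Y i))) ≤ π * R ^ 2 := by
    have h2 : ∑ i ∈ S, volume (cell n t S i ∩ closedBall (c i) ((1 + L) * r i)) =
        volume (⋃ i ∈ S, (cell n t S i ∩ closedBall (c i) ((1 + L) * r i))) := by
      rw [measure_biUnion_finset₀]
      · intro i hi j hj hij
        exact (cell_aedisjoint h hi hj hij).mono Set.inter_subset_left Set.inter_subset_left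
      · intro i _
        exact ((cell_closed n t S i).inter isClosed_closedBall).measurableSet.nullMeasurableSet
    have h3 : volume (⋃ i ∈ S, (cell n t S i ∩ closedBall (c i) ((1 + L) * r i))) ≤
        ENNReal.ofReal (π * R ^ 2) := by
      rw [← vol_cb 0 hR]
      exact measure_mono (Set.iUnion₂_subset fun i hi => Set.inter_subset_right.trans (hSR i hi))
    have h4 : ENNReal.ofReal (∑ i ∈ S, r i ^ 2 * (π + 2 * (Y i - arctan (Y i)))) ≤
        ENNReal.ofReal (π * R ^ 2) := by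
      rw [ENNReal.ofReal_sum_of_nonneg]
      · exact (Finset.sum_le_sum fun i _ => hYA i).trans (h2.le.trans h3)
      · intro i _
        have h5 : arctan (Y i) ≤ Y i := arctan_le (hY0 i)
        have : 0 ≤ Y i - arctan (Y i) := by linarith
        positivity
    rwa [ENNReal.ofReal_le_ofReal_iff (by positivity)] at h4
  -- the inflated discs
  have h2 : ∀ k, ∑ i ∈ S, r i ^ 2 * (π * N k (Y i) ^ 2) ≤ π * R ^ 2 := by
    intro k
    have h3 : ∑ i ∈ S, volume (ball (c i) (r i * N k (Y i))) =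
        volume (⋃ i ∈ S, ball (c i) (r i * N k (Y i))) := by
      rw [measure_biUnion_finset]
      · intro i hi j hj hij
        have h4 := hpair k (r i) (r j) (dist (c i) (c j)) (Y i) (Y j) (hr i) (hr j)
          (dist_ge hr h hij) (hY0 i) (hY0 j) (hYm i j hj hij.symm) (by
            have := hYm j i hi hij
            rwa [dist_comm, tau_comm] at this)
        rcases h4 with h4 | h4 | h4
        · simp [Function.onFun, h4]
        · simp [Function.onFun, h4]
        · exact ball_disjoint_ball h4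
      · intro i _
        exact measurableSet_ball
    have h4 : volume (⋃ i ∈ S, ball (c i) (r i * N k (Y i))) ≤ ENNReal.ofReal (π * R ^ 2) := by
      rw [← vol_cb 0 hR]
      refine measure_mono (Set.iUnion₂_subset fun i hi => ?_)
      refine ball_subset_closedBall.trans ((closedBall_subset_closedBall ?_).trans (hSR i hi))
      rw [mul_comm]
      exact mul_le_mul_of_nonneg_right (hN1 k _ (hY0 i)) (hr i).le
    have h5 : ENNReal.ofReal (∑ i ∈ S, r i ^ 2 * (π * N k (Y i) ^ 2)) ≤ ENNReal.ofReal (π * R ^ 2) := by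
      rw [ENNReal.ofReal_sum_of_nonneg (fun i _ => by positivity)]
      refine (le_of_eq ?_).trans (h3.le.trans h4)
      refine Finset.sum_congr rfl fun i _ => ?_
      rw [← Measure.addHaar_closedBall_eq_addHaar_ball, vol_cb _ (mul_nonneg (hr i).le (hN0 k _ (hY0 i)))]
      congr 1
      ring
    rwa [ENNReal.ofReal_le_ofReal_iff (by positivity)] at h5
  have h3 : T * π * ∑ i ∈ S, r i ^ 2 ≤ (1 - ∑ k, lam k) * (π * R ^ 2) + ∑ k, lam k * (π * R ^ 2) := by
    calc T * π * ∑ i ∈ S, r i ^ 2 = ∑ i ∈ S, r i ^ 2 * (T * π) := by rw [Finset.mul_sum]; simp only [mul_comm]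
      _ ≤ ∑ i ∈ S, r i ^ 2 * ((1 - ∑ k, lam k) * (π + 2 * (Y i - arctan (Y i))) +
            ∑ k, lam k * (π * N k (Y i) ^ 2)) :=
          Finset.sum_le_sum fun i _ => mul_le_mul_of_nonneg_left (hbr _ (hY0 i) (hYL i)) (sq_nonneg _)
      _ = (1 - ∑ k, lam k) * ∑ i ∈ S, r i ^ 2 * (π + 2 * (Y i - arctan (Y i))) +
            ∑ k, lam k * ∑ i ∈ S, r i ^ 2 * (π * N k (Y i) ^ 2) := by
          simp only [mul_add, Finset.sum_add_distrib, Finset.mul_sum]
          congr 1
          · congr 1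
            · exact Finset.sum_congr rfl fun i _ => by ring
            · exact Finset.sum_congr rfl fun i _ => by ring
          · rw [Finset.sum_comm]
            exact Finset.sum_congr rfl fun i _ => Finset.sum_congr rfl fun k _ => by ring
      _ ≤ _ := add_le_add (mul_le_mul_of_nonneg_left h1 (by linarith))
          (Finset.sum_le_sum fun k _ => mul_le_mul_of_nonneg_left (h2 k) (hlam k))
  rw [← Finset.sum_mul] at h3
  have h4 : (1 - ∑ k, lam k) * (π * R ^ 2) + (∑ k, lam k) * (π * R ^ 2) = π * R ^ 2 := by ring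
  rw [h4] at h3
  have h5 : π * (T * ∑ i ∈ S, r i ^ 2) ≤ π * R ^ 2 := by linarith
  exact le_of_mul_le_mul_left h5 hpi

end Pool.Agent.H79.TG
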