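import Pool.Agent.H79.TG.Cell

/-!
MP_887a8d_co.  From finite families to the upper density.
-/

set_option autoImplicit false

namespace Pool.Agent.H79.TG

open MeasureTheory Real Metric Pool.Agent.H79.TS Filter Topology

theorem dens_of_finite {ι : Type*} {c : ι → E} {r : ι → ℝ} (hr : ∀ i, 0 < r i) (hsep : TotSep c r)
    (hgrow : ∀ ε > 0, ∀ᶠ R : ℝ in atTop, ∀ i,
      (closedBall (c i) (r i) ∩ closedBall 0 R).Nonempty → r i ≤ ε * R)
    {L T : ℝ} (hL : 0 < L) (hT : 0 < T)
    (hfin : ∀ (S : Finset ι) (R : ℝ), 0 ≤ R →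
      (∀ i ∈ S, closedBall (c i) ((1 + L) * r i) ⊆ closedBall 0 R) → T * ∑ i ∈ S, r i ^ 2 ≤ R ^ 2) :
    limsup (fun R : ℝ => volume ((⋃ i, closedBall (c i) (r i)) ∩ closedBall 0 R) /
      ENNReal.ofReal (π * R ^ 2)) atTop ≤ ENNReal.ofReal (1 / T) := by
  classical
  have hpi := Real.pi_pos
  have hcount : Countable ι := hsep.countable hr
  have key : ∀ ε : ℝ, 0 < ε →
      limsup (fun R : ℝ => volume ((⋃ i, closedBall (c i) (r i)) ∩ closedBall 0 R) /
        ENNReal.ofReal (π * R ^ 2)) atTop ≤ ENNReal.ofReal ((1 + (2 + L) * ε) ^ 2 / T) := by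
    intro ε hε
    refine limsup_le_of_le ?_ ?_
    · isBoundedDefault
    filter_upwards [eventually_gt_atTop (0 : ℝ), hgrow ε hε] with R hR hg
    let I : Set ι := {i | (closedBall (c i) (r i) ∩ closedBall 0 R).Nonempty}
    have hIc : I.Countable := Set.to_countable I
    have hsub : (⋃ i, closedBall (c i) (r i)) ∩ closedBall 0 R ⊆ ⋃ i ∈ I, closedBall (c i) (r i) := by
      rintro y ⟨hy1, hy2⟩
      obtain ⟨i, hi⟩ := Set.mem_iUnion.mp hy1
      exact Set.mem_iUnion₂.mpr ⟨i, ⟨y, hi, hy2⟩, hi⟩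
    have hIsub : ∀ i ∈ I, closedBall (c i) ((1 + L) * r i) ⊆ closedBall 0 ((1 + (2 + L) * ε) * R) := by
      intro i hi
      have hgi := hg i hi
      obtain ⟨y, hy1, hy2⟩ := hi
      intro z hz
      rw [mem_closedBall] at *
      have h1 := dist_triangle z (c i) 0
      have h2 := dist_triangle (c i) y 0
      rw [dist_comm (c i) y] at h2
      have h3 : (2 + L) * r i ≤ (2 + L) * (ε * R) := mul_le_mul_of_nonneg_left hgi (by positivity)
      linarith
    refine ENNReal.div_le_of_le_mul ?_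
    rw [← ENNReal.ofReal_mul (by positivity)]
    refine (measure_mono hsub).trans ((measure_biUnion_le volume hIc _).trans ?_)
    rw [ENNReal.tsum_eq_iSup_sum]
    refine iSup_le fun s => ?_
    have hs1 : ∀ D ∈ s.map (Function.Embedding.subtype _), D ∈ I := by
      intro D hD
      obtain ⟨a, _, ha⟩ := Finset.mem_map.mp hD
      rw [← ha]
      exact a.2
    have h5 : ∑ a ∈ s, volume (closedBall (c a) (r a)) = ENNReal.ofReal (∑ a ∈ s, π * (r a) ^ 2) := by
      rw [ENNReal.ofReal_sum_of_nonneg (fun a _ => by positivity)]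
      exact Finset.sum_congr rfl fun a _ => vol_cb _ (hr a).le
    rw [h5]
    refine ENNReal.ofReal_le_ofReal ?_
    have h6 : ∑ a ∈ s, (r a) ^ 2 = ∑ i ∈ s.map (Function.Embedding.subtype _), r i ^ 2 := by
      rw [Finset.sum_map]; rfl
    rw [← Finset.mul_sum, h6]
    have h7 := hfin (s.map (Function.Embedding.subtype _)) ((1 + (2 + L) * ε) * R) (by positivity)
      (fun i hi => hIsub i (hs1 i hi))
    calc π * ∑ i ∈ s.map (Function.Embedding.subtype _), r i ^ 2 =
        π / T * (T * ∑ i ∈ s.map (Function.Embedding.subtype _), r i ^ 2) := by field_simp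
      _ ≤ π / T * ((1 + (2 + L) * ε) * R) ^ 2 := mul_le_mul_of_nonneg_left h7 (by positivity)
      _ = (1 + (2 + L) * ε) ^ 2 / T * (π * R ^ 2) := by field_simp
  have hlim : Tendsto (fun ε : ℝ => ENNReal.ofReal ((1 + (2 + L) * ε) ^ 2 / T)) (𝓝[>] 0)
      (𝓝 (ENNReal.ofReal (1 / T))) := by
    have h1 : ContinuousAt (fun ε : ℝ => (1 + (2 + L) * ε) ^ 2 / T) 0 := by fun_prop
    have h2 : Tendsto (fun ε : ℝ => (1 + (2 + L) * ε) ^ 2 / T) (𝓝 0) (𝓝 (1 / T)) := by
      have := h1.tendsto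
      simpa using this
    exact (ENNReal.continuous_ofReal.tendsto _).comp (h2.mono_left nhdsWithin_le_nhds)
  refine ge_of_tendsto hlim ?_
  filter_upwards [self_mem_nhdsWithin] with ε hε
  exact key ε hε

end Pool.Agent.H79.TG
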