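import Pool.Agent.H79.TS.Dens

/-!
MP_887a8d_co.  The area of a convex set that contains a disc and two points.
-/

set_option autoImplicit false

namespace Pool.Agent.H79.TG

open MeasureTheory Real Metric Pool.Agent.H79.TS

/-- the determinant -/
def dt (u z : E) : ℝ := u 0 * z 1 - u 1 * z 0

theorem nsq (z : E) : ‖z‖ ^ 2 = z 0 ^ 2 + z 1 ^ 2 := by
  rw [← real_inner_self_eq_norm_sq, inner_two]; ring

theorem lagr (u v z : E) : inner ℝ u z * inner ℝ v z + dt u z * dt v z = ‖z‖ ^ 2 * inner ℝ u v := by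
  rw [nsq]; simp only [inner_two, dt]; ring

theorem lagr1 {u : E} (hu : ‖u‖ = 1) (z : E) : inner ℝ u z ^ 2 + dt u z ^ 2 = ‖z‖ ^ 2 := by
  have h := lagr u u z
  rw [real_inner_self_eq_norm_sq, hu] at h
  nlinarith

theorem vol_rot {u : E} (hu : ‖u‖ = 1) (c : E) {B : Set (ℝ × ℝ)} (hB : MeasurableSet B) :
    volume {x : E | (inner ℝ u (x - c), dt u (x - c)) ∈ B} = volume B := by
  have husq : u 0 ^ 2 + u 1 ^ 2 = 1 := by
    rw [← nsq, hu]; norm_num
  let A : Matrix (Fin 2) (Fin 2) ℝ := !![u 0, u 1; - u 1, u 0]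
  let ψ : E →ₗ[ℝ] E := Matrix.toEuclideanLin A
  have hdet : LinearMap.det ψ = 1 := by
    have h1 : ψ = Matrix.toLin (PiLp.basisFun 2 ℝ (Fin 2)) (PiLp.basisFun 2 ℝ (Fin 2)) A := by
      change Matrix.toEuclideanLin A = _
      rw [Matrix.toEuclideanLin, Matrix.toLpLin_eq_toLin]
    rw [h1, LinearMap.det_toLin]
    simp only [A, Matrix.det_fin_two_of]
    linarith
  have e0 : ∀ t : E, (ψ t) 0 = inner ℝ u t := by
    intro t
    rw [inner_two]
    simp [ψ, A, Matrix.toEuclideanLin, Matrix.mulVec, dotProduct, Fin.sum_univ_two]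
  have e1 : ∀ t : E, (ψ t) 1 = dt u t := by
    intro t
    simp [ψ, A, dt, Matrix.toEuclideanLin, Matrix.mulVec, dotProduct, Fin.sum_univ_two]
    ring
  let B₁ : Set E := {t | (t 0, t 1) ∈ B}
  have hset : {x : E | (inner ℝ u (x - c), dt u (x - c)) ∈ B} = (fun x => x + (-c)) ⁻¹' (ψ ⁻¹' B₁) := by
    ext x
    simp only [Set.mem_preimage, B₁, Set.mem_setOf_eq, e0, e1, sub_eq_add_neg]
  rw [hset, measure_preimage_add_right, Measure.addHaar_preimage_linearMap _ (by rw [hdet]; norm_num), hdet]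
  simp only [inv_one, abs_one, ENNReal.ofReal_one, one_mul]
  have hB₁ : B₁ = (fun s : E => (WithLp.ofLp s : Fin 2 → ℝ)) ⁻¹' {s | (s 0, s 1) ∈ B} := rfl
  have hm : MeasurableSet {s : Fin 2 → ℝ | (s 0, s 1) ∈ B} :=
    ((measurable_pi_apply 0).prodMk (measurable_pi_apply 1)) hB
  have h2 : volume B₁ = volume {s : Fin 2 → ℝ | (s 0, s 1) ∈ B} := by
    rw [hB₁]
    exact (PiLp.volume_preserving_ofLp (Fin 2)).measure_preimage hm.nullMeasurableSet
  rw [h2]
  exact (volume_preserving_finTwoArrow ℝ).measure_preimage hB.nullMeasurableSet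

theorem vol_tri {u : E} (hu : ‖u‖ = 1) (c : E) {ρ β : ℝ} (hρ : 0 < ρ) (h0 : 0 < β) (h1 : β < π / 2) :
    volume {x : E | ρ * cos β < inner ℝ u (x - c) ∧
      |dt u (x - c)| * sin β + inner ℝ u (x - c) * cos β < ρ} =
      ENNReal.ofReal (ρ ^ 2 * (sin β ^ 3 / cos β)) := by
  have hc : 0 < cos β := Real.cos_pos_of_mem_Ioo ⟨by linarith [Real.pi_pos], h1⟩
  have hs : 0 < sin β := Real.sin_pos_of_pos_of_lt_pi h0 (by linarith [Real.pi_pos])
  have hsc := Real.sin_sq_add_cos_sq β
  let B : Set (ℝ × ℝ) := {s | ρ * cos β < s.1 ∧ |s.2| * sin β + s.1 * cos β < ρ}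
  have hB : MeasurableSet B := by
    refine (measurableSet_lt measurable_const measurable_fst).inter ?_
    exact measurableSet_lt (((continuous_snd.abs.mul continuous_const).add
      (continuous_fst.mul continuous_const)).measurable) measurable_const
  have h2 := vol_rot hu c hB
  have h3 : {x : E | ρ * cos β < inner ℝ u (x - c) ∧
      |dt u (x - c)| * sin β + inner ℝ u (x - c) * cos β < ρ} =
      {x : E | (inner ℝ u (x - c), dt u (x - c)) ∈ B} := rfl
  rw [h3, h2, Measure.volume_eq_prod, Measure.prod_apply hB]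
  have hab : ρ * cos β ≤ ρ / cos β := by
    rw [le_div_iff₀ hc]
    nlinarith [Real.cos_le_one β]
  have hpt : ∀ a : ℝ, volume (Prod.mk a ⁻¹' B) =
      (Set.Ioc (ρ * cos β) (ρ / cos β)).indicator
        (fun a => ENNReal.ofReal (2 * ((ρ - a * cos β) / sin β))) a := by
    intro a
    by_cases ha : a ∈ Set.Ioc (ρ * cos β) (ρ / cos β)
    · rw [Set.indicator_of_mem ha]
      have e : Prod.mk a ⁻¹' B = Set.Ioo (-((ρ - a * cos β) / sin β)) ((ρ - a * cos β) / sin β) := by
        ext b
        simp only [B, Set.mem_preimage, Set.mem_setOf_eq, Set.mem_Ioo]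
        rw [← abs_lt, lt_div_iff₀ hs]
        constructor
        · rintro ⟨_, h⟩
          linarith
        · intro h
          exact ⟨ha.1, by linarith⟩
      rw [e, Real.volume_Ioo]
      congr 1
      ring
    · rw [Set.indicator_of_notMem ha]
      have e : Prod.mk a ⁻¹' B = ∅ := by
        ext b
        simp only [B, Set.mem_preimage, Set.mem_setOf_eq, Set.mem_empty_iff_false, iff_false]
        rintro ⟨h3, h4⟩
        apply ha
        refine ⟨h3, ?_⟩
        rw [le_div_iff₀ hc]
        have : 0 ≤ |b| * sin β := by positivity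
        linarith
      rw [e, measure_empty]
  rw [lintegral_congr hpt, lintegral_indicator measurableSet_Ioc,
    ← ofReal_integral_eq_lintegral_ofReal, ← intervalIntegral.integral_of_le hab]
  · congr 1
    have hder : ∀ x ∈ Set.uIcc (ρ * cos β) (ρ / cos β),
        HasDerivAt (fun x => 2 * (ρ * x - x ^ 2 * cos β / 2) / sin β)
          (2 * ((ρ - x * cos β) / sin β)) x := by
      intro x _
      have d1 := ((hasDerivAt_id x).const_mul ρ)
      have d2 := (((hasDerivAt_pow 2 x).mul_const (cos β)).div_const 2)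
      have d3 := ((d1.sub d2).const_mul 2).div_const (sin β)
      refine d3.congr_deriv ?_
      push_cast
      ring
    rw [intervalIntegral.integral_eq_sub_of_hasDerivAt hder
      (Continuous.intervalIntegrable (by fun_prop) _ _)]
    field_simp
    have e : sin β ^ 2 = 1 - cos β ^ 2 := by linarith
    have e4 : sin β ^ 4 = (1 - cos β ^ 2) ^ 2 := by rw [← e]; ring
    rw [e4]
    ring
  · exact (Continuous.integrableOn_Ioc (by fun_prop))
  · refine (ae_restrict_iff' measurableSet_Ioc).2 (Filter.Eventually.of_forall fun x hx => ?_)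
    have h5 : x * cos β ≤ ρ := by
      have := hx.2
      rwa [le_div_iff₀ hc] at this
    have : 0 ≤ (ρ - x * cos β) / sin β := div_nonneg (by linarith) hs.le
    simp only [Pi.zero_apply]
    linarith

/-- the triangle at a point of a convex set that contains a disc -/
theorem tri_sub {C : Set E} (hC : Convex ℝ C) {c u : E} (hu : ‖u‖ = 1) {ρ β : ℝ} (hρ : 0 < ρ)
    (h0 : 0 < β) (h1 : β < π / 2) (hK : closedBall c ρ ⊆ C) (hq : c + (ρ / cos β) • u ∈ C) :
    {x : E | ρ * cos β < inner ℝ u (x - c) ∧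
      |dt u (x - c)| * sin β + inner ℝ u (x - c) * cos β < ρ} ⊆ C := by
  rintro x ⟨hx1, hx2⟩
  have hc : 0 < cos β := Real.cos_pos_of_mem_Ioo ⟨by linarith [Real.pi_pos], h1⟩
  have hs : 0 < sin β := Real.sin_pos_of_pos_of_lt_pi h0 (by linarith [Real.pi_pos])
  have hsc := Real.sin_sq_add_cos_sq β
  set a := inner ℝ u (x - c) with ha
  set b := dt u (x - c) with hb
  have haD : a < ρ / cos β := by
    rw [lt_div_iff₀ hc]
    have : 0 ≤ |b| * sin β := by positivity
    linarith
  have hD : ρ * cos β < ρ / cos β := by linarith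
  -- the point on the chord
  let w : E := (WithLp.toLp 2 ![- u 1, u 0] : E)
  have hw0 : w 0 = - u 1 := by simp [w]
  have hw1 : w 1 = u 0 := by simp [w]
  have husq : u 0 ^ 2 + u 1 ^ 2 = 1 := by rw [← nsq, hu]; norm_num
  have hdec : x - c = a • u + b • w := by
    have ea : a = u 0 * (x - c) 0 + u 1 * (x - c) 1 := by rw [ha, inner_two]
    have eb : b = u 0 * (x - c) 1 - u 1 * (x - c) 0 := by rw [hb, dt]
    ext i
    fin_cases i
    · show (x - c) 0 = (a • u + b • w) 0
      simp only [PiLp.add_apply, PiLp.smul_apply, smul_eq_mul, hw0]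
      rw [ea, eb]
      linear_combination (-(x - c) 0) * husq
    · show (x - c) 1 = (a • u + b • w) 1
      simp only [PiLp.add_apply, PiLp.smul_apply, smul_eq_mul, hw1]
      rw [ea, eb]
      linear_combination (-(x - c) 1) * husq
  set l := (ρ / cos β - ρ * cos β) with hl
  have hl0 : 0 < l := by linarith
  set s := (a - ρ * cos β) / l with hsd
  have hs0 : 0 ≤ s := div_nonneg (by linarith) hl0.le
  have hs1 : s < 1 := by rw [hsd, div_lt_one hl0]; linarith
  have h1s : 0 < 1 - s := by linarith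
  have hsl : s * l = a - ρ * cos β := by rw [hsd]; exact div_mul_cancel₀ _ hl0.ne'
  have e1s : (1 - s) * l = ρ / cos β - a := by
    have e : (1 - s) * l = l - s * l := by ring
    rw [e, hsl, hl]; ring
  let p : E := c + (ρ * cos β) • u + (b / (1 - s)) • w
  have hp : p ∈ closedBall c ρ := by
    rw [mem_closedBall, dist_eq_norm]
    have e : p - c = (ρ * cos β) • u + (b / (1 - s)) • w := by
      simp only [p]; abel
    rw [e, ← sq_le_sq₀ (norm_nonneg _) hρ.le, nsq]
    simp only [PiLp.add_apply, PiLp.smul_apply, smul_eq_mul, hw0, hw1]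
    have e2 : (ρ * cos β * u 0 + b / (1 - s) * -u 1) ^ 2 + (ρ * cos β * u 1 + b / (1 - s) * u 0) ^ 2 =
        (ρ * cos β) ^ 2 + (b / (1 - s)) ^ 2 := by
      linear_combination ((ρ * cos β) ^ 2 + (b / (1 - s)) ^ 2) * husq
    rw [e2]
    have h3 : |b / (1 - s)| ≤ ρ * sin β := by
      rw [abs_div, abs_of_pos h1s, div_le_iff₀ h1s]
      have h4 : |b| * sin β ≤ (ρ / cos β - a) * cos β := by
        rw [sub_mul, div_mul_cancel₀ _ hc.ne']; linarith
      have h5 : l * cos β = ρ * sin β ^ 2 := by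
        rw [hl, sub_mul, div_mul_cancel₀ _ hc.ne']
        nlinarith
      have h6 : |b| * sin β ≤ (1 - s) * (ρ * sin β ^ 2) := by
        rw [← e1s] at h4
        calc |b| * sin β ≤ (1 - s) * l * cos β := h4
          _ = (1 - s) * (l * cos β) := by ring
          _ = _ := by rw [h5]
      have h7 : |b| * sin β ≤ (ρ * sin β * (1 - s)) * sin β := by
        calc |b| * sin β ≤ (1 - s) * (ρ * sin β ^ 2) := h6
          _ = _ := by ring
      exact le_of_mul_le_mul_right h7 hs
    have h8 : (b / (1 - s)) ^ 2 ≤ (ρ * sin β) ^ 2 := by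
      rw [← sq_abs (b / (1 - s))]
      exact pow_le_pow_left₀ (abs_nonneg _) h3 2
    calc (ρ * cos β) ^ 2 + (b / (1 - s)) ^ 2 ≤ (ρ * cos β) ^ 2 + (ρ * sin β) ^ 2 := by linarith
      _ = ρ ^ 2 * (sin β ^ 2 + cos β ^ 2) := by ring
      _ = ρ ^ 2 := by rw [hsc, mul_one]
  have hx : x = (1 - s) • p + s • (c + (ρ / cos β) • u) := by
    have e3 : x = c + (a • u + b • w) := by rw [← hdec]; abel
    rw [e3]
    simp only [p, smul_add, smul_smul]
    have e4 : (1 - s) * (b / (1 - s)) = b := by field_simp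
    have e5 : (1 - s) * (ρ * cos β) + s * (ρ / cos β) = a := by
      have : s * l = a - ρ * cos β := by rw [hsd]; field_simp
      rw [hl] at this
      linarith
    rw [e4, ← e5, add_smul]
    module
  rw [hx]
  exact hC (hK hp) hq h1s.le hs0 (by ring)

theorem ear_pos {C : Set E} (hC : Convex ℝ C) {c u v : E} (hu : ‖u‖ = 1) (hv : ‖v‖ = 1) {ρ β : ℝ}
    (hρ : 0 < ρ) (h0 : 0 < β) (h1 : β < π / 2) (hK : closedBall c ρ ⊆ C)
    (hq : c + (ρ / cos β) • u ∈ C) (hq' : c + (ρ / cos β) • v ∈ C)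
    (huv : inner ℝ u v ≤ cos (2 * β)) :
    ENNReal.ofReal (ρ ^ 2 * (π + 2 * (tan β - β))) ≤ volume C := by
  have hc : 0 < cos β := Real.cos_pos_of_mem_Ioo ⟨by linarith [Real.pi_pos], h1⟩
  have hs : 0 < sin β := Real.sin_pos_of_pos_of_lt_pi h0 (by linarith [Real.pi_pos])
  have hsc := Real.sin_sq_add_cos_sq β
  let T : E → Set E := fun u => {x : E | ρ * cos β < inner ℝ u (x - c) ∧
      |dt u (x - c)| * sin β + inner ℝ u (x - c) * cos β < ρ}
  let G : E → Set E := fun u => {x : E | dist x c ≤ ρ ∧ ρ * cos β < inner ℝ u (x - c)}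
  have hTm : ∀ u, MeasurableSet (T u) := by
    intro u
    have c1 : Continuous fun x : E => inner ℝ u (x - c) := by fun_prop
    have c2 : Continuous fun x : E => |dt u (x - c)| := by
      unfold dt
      fun_prop
    exact (measurableSet_lt measurable_const c1.measurable).inter
      (measurableSet_lt ((c2.mul continuous_const).add (c1.mul continuous_const)).measurable
        measurable_const)
  have hGm : ∀ u, MeasurableSet (G u) := by
    intro u
    have c1 : Continuous fun x : E => inner ℝ u (x - c) := by fun_prop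
    exact (measurableSet_le (continuous_id.dist continuous_const).measurable measurable_const).inter
      (measurableSet_lt measurable_const c1.measurable)
  have hdis : Disjoint (T u) (T v) := by
    rw [Set.disjoint_left]
    rintro x ⟨a1, a2⟩ ⟨b1, b2⟩
    set z := x - c with hz
    have l1 := lagr1 hu z
    have l2 := lagr1 hv z
    have l3 := lagr u v z
    have key : ∀ a b : ℝ, ρ * cos β < a → |b| * sin β + a * cos β < ρ → |b| * cos β < a * sin β := by
      intro a b ha hb
      have h2 : |b| * sin β < ρ * sin β ^ 2 := by nlinarith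
      have h3 : |b| < ρ * sin β := by
        have : |b| * sin β < (ρ * sin β) * sin β := by
          calc |b| * sin β < ρ * sin β ^ 2 := h2
            _ = _ := by ring
        exact lt_of_mul_lt_mul_right this hs.le
      calc |b| * cos β < ρ * sin β * cos β := mul_lt_mul_of_pos_right h3 hc
        _ = ρ * cos β * sin β := by ring
        _ < a * sin β := mul_lt_mul_of_pos_right ha hs
    have k1 := key _ _ a1 a2
    have k2 := key _ _ b1 b2
    set a := inner ℝ u z
    set b := inner ℝ v z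
    set d := dt u z
    set e := dt v z
    have hpa : 0 < a := lt_trans (by positivity) a1
    have hpb : 0 < b := lt_trans (by positivity) b1
    have hz2 : 0 < ‖z‖ ^ 2 := by nlinarith [sq_nonneg d]
    -- squares
    have q1 : d ^ 2 * cos β ^ 2 < a ^ 2 * sin β ^ 2 := by
      have := pow_lt_pow_left₀ k1 (by positivity) (n := 2) (by norm_num)
      calc d ^ 2 * cos β ^ 2 = (|d| * cos β) ^ 2 := by rw [mul_pow, sq_abs]
        _ < _ := this
        _ = _ := by ring
    have q2 : e ^ 2 * cos β ^ 2 < b ^ 2 * sin β ^ 2 := by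
      have := pow_lt_pow_left₀ k2 (by positivity) (n := 2) (by norm_num)
      calc e ^ 2 * cos β ^ 2 = (|e| * cos β) ^ 2 := by rw [mul_pow, sq_abs]
        _ < _ := this
        _ = _ := by ring
    have r1 : ‖z‖ ^ 2 * cos β ^ 2 < a ^ 2 := by rw [← l1]; nlinarith
    have r2 : ‖z‖ ^ 2 * cos β ^ 2 < b ^ 2 := by rw [← l2]; nlinarith
    have s1 : d ^ 2 < ‖z‖ ^ 2 * sin β ^ 2 := by rw [← l1]; nlinarith
    have s2 : e ^ 2 < ‖z‖ ^ 2 * sin β ^ 2 := by rw [← l2]; nlinarith
    have hab : ‖z‖ ^ 2 * cos β ^ 2 < a * b := by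
      by_contra hcon
      push Not at hcon
      have : (a * b) ^ 2 ≤ (‖z‖ ^ 2 * cos β ^ 2) ^ 2 := pow_le_pow_left₀ (by positivity) hcon 2
      have h9 : (‖z‖ ^ 2 * cos β ^ 2) * (‖z‖ ^ 2 * cos β ^ 2) < a ^ 2 * b ^ 2 :=
        mul_lt_mul'' r1 r2 (by positivity) (by positivity)
      nlinarith
    have hde : -(‖z‖ ^ 2 * sin β ^ 2) < d * e := by
      by_contra hcon
      push Not at hcon
      have : (‖z‖ ^ 2 * sin β ^ 2) ^ 2 ≤ (d * e) ^ 2 := by
        have := pow_le_pow_left₀ (by positivity : 0 ≤ ‖z‖ ^ 2 * sin β ^ 2)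
          (by linarith : ‖z‖ ^ 2 * sin β ^ 2 ≤ -(d * e)) 2
        nlinarith
      have h9 : d ^ 2 * e ^ 2 < (‖z‖ ^ 2 * sin β ^ 2) * (‖z‖ ^ 2 * sin β ^ 2) :=
        mul_lt_mul'' s1 s2 (by positivity) (by positivity)
      nlinarith
    have h10 : ‖z‖ ^ 2 * inner ℝ u v ≤ ‖z‖ ^ 2 * cos (2 * β) := mul_le_mul_of_nonneg_left huv hz2.le
    rw [Real.cos_two_mul] at h10
    nlinarith
  have hG : ∀ u : E, ‖u‖ = 1 → volume (G u) = ENNReal.ofReal (ρ ^ 2 * (β - sin β * cos β)) := by
    intro u hu
    have h2 := vol_seg (R := ρ) hρ h0.le h1.le c u hu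
    exact h2
  have hsub : (closedBall c ρ \ (G u ∪ G v)) ∪ (T u ∪ T v) ⊆ C := by
    rintro x (hx | hx | hx)
    · exact hK hx.1
    · exact tri_sub hC hu hρ h0 h1 hK hq hx
    · exact tri_sub hC hv hρ h0 h1 hK hq' hx
  have hd1 : Disjoint (closedBall c ρ \ (G u ∪ G v)) (T u ∪ T v) := by
    rw [Set.disjoint_left]
    rintro x ⟨hx1, hx2⟩ (hx | hx)
    · exact hx2 (Or.inl ⟨hx1, hx.1⟩)
    · exact hx2 (Or.inr ⟨hx1, hx.1⟩)
  have hv1 : volume (closedBall c ρ \ (G u ∪ G v)) ≥
      ENNReal.ofReal (π * ρ ^ 2 - 2 * (ρ ^ 2 * (β - sin β * cos β))) := by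
    have hsb : 0 ≤ β - sin β * cos β := by
      have h3 : sin β ≤ β := Real.sin_le h0.le
      nlinarith [Real.cos_le_one β]
    have h2 : volume (closedBall c ρ) ≤ volume (closedBall c ρ \ (G u ∪ G v)) +
        (ENNReal.ofReal (ρ ^ 2 * (β - sin β * cos β)) + ENNReal.ofReal (ρ ^ 2 * (β - sin β * cos β))) := by
      calc volume (closedBall c ρ) ≤ volume ((closedBall c ρ \ (G u ∪ G v)) ∪ (G u ∪ G v)) :=
            measure_mono (by rw [Set.sdiff_union_self]; exact Set.subset_union_left)
        _ ≤ volume (closedBall c ρ \ (G u ∪ G v)) + volume (G u ∪ G v) := measure_union_le _ _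
        _ ≤ _ := by
            gcongr
            refine (measure_union_le _ _).trans ?_
            rw [hG u hu, hG v hv]
    rw [vol_cb c hρ.le, ← ENNReal.ofReal_add (by positivity) (by positivity)] at h2
    rw [ENNReal.ofReal_sub _ (by positivity), two_mul]
    exact tsub_le_iff_right.2 h2
  have hfin : volume ((closedBall c ρ \ (G u ∪ G v)) ∪ (T u ∪ T v)) ≤ volume C := measure_mono hsub
  rw [measure_union hd1 ((hTm u).union (hTm v)), measure_union hdis (hTm v), vol_tri hu c hρ h0 h1,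
    vol_tri hv c hρ h0 h1] at hfin
  refine le_trans ?_ hfin
  refine le_trans ?_ (add_le_add_left hv1 _)
  have hsb : 0 ≤ π * ρ ^ 2 - 2 * (ρ ^ 2 * (β - sin β * cos β)) := by
    have h3 : 0 < sin β * cos β := by positivity
    have h4 : β - sin β * cos β ≤ π / 2 := by linarith
    have := mul_le_mul_of_nonneg_left h4 (sq_nonneg ρ)
    linarith
  rw [← ENNReal.ofReal_add (by positivity) (by positivity), ← ENNReal.ofReal_add hsb (by positivity)]
  refine ENNReal.ofReal_le_ofReal (le_of_eq ?_)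
  rw [Real.tan_eq_sin_div_cos]
  field_simp
  linear_combination (-2 * sin β) * hsc

end Pool.Agent.H79.TG
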