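import Pool.Agent.H79.TG.Pair

/-!
MP_887a8d_co.  The numerical inequalities for the general bound.  The polynomial inequalities are proved in Bernstein form.
-/

set_option autoImplicit false

namespace Pool.Agent.H79.TG

open Real

theorem f0a {p : ℝ} (h0 : (23 / 50 : ℝ) ≤ p) (h1 : p ≤ (43 / 50 : ℝ)) :
    0 ≤ (1 + p) ^ 2 - 4 * p * (1.19 - 0.23 * p - 0.08 * p ^ 2) ^ 2 := by
  have key : ∀ s t : ℝ, 0 ≤ s → 0 ≤ t → 0 ≤ (6975015537 / 2000000000 : ℝ) * s ^ 0 * t ^ 5 + (39537717 / 400000000 : ℝ) * s ^ 1 * t ^ 4 + (4781550097 / 200000000 : ℝ) * s ^ 2 * t ^ 3 + (21482280677 / 200000000 : ℝ) * s ^ 3 * t ^ 2 + (50216877457 / 400000000 : ℝ) * s ^ 4 * t ^ 1 + (90803208437 / 2000000000 : ℝ) * s ^ 5 * t ^ 0 := by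
    intro s t hs ht
    positivity
  have h := key (p - (23 / 50 : ℝ)) ((43 / 50 : ℝ) - p) (by linarith) (by linarith)
  refine le_of_le_of_eq h ?_
  ring

theorem f0b {p : ℝ} (h0 : (43 / 50 : ℝ) ≤ p) (h1 : p ≤ (1 : ℝ)) :
    0 ≤ (1 + p) ^ 2 - 4 * p * (1.19 - 0.23 * p - 0.08 * p ^ 2) ^ 2 := by
  have key : ∀ s t : ℝ, 0 ≤ s → 0 ≤ t → 0 ≤ (90803208437 / 10504375 : ℝ) * s ^ 0 * t ^ 5 + (21001684856 / 420175 : ℝ) * s ^ 1 * t ^ 4 + (1930647641 / 16807 : ℝ) * s ^ 2 * t ^ 3 + (2204264950 / 16807 : ℝ) * s ^ 3 * t ^ 2 + (1250400000 / 16807 : ℝ) * s ^ 4 * t ^ 1 + (282000000 / 16807 : ℝ) * s ^ 5 * t ^ 0 := by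
    intro s t hs ht
    positivity
  have h := key (p - (43 / 50 : ℝ)) ((1 : ℝ) - p) (by linarith) (by linarith)
  refine le_of_le_of_eq h ?_
  ring

theorem c1a {p : ℝ} (h0 : (23 / 50 : ℝ) ≤ p) (h1 : p ≤ (1 : ℝ)) :
    0 ≤ 1 - (1.19 - 0.23 * p - 0.08 * p ^ 2) ^ 2 + 0.64 * (1.19 - 0.23 * p - 0.08 * p ^ 2) * p ^ 2 := by
  have key : ∀ s t : ℝ, 0 ≤ s → 0 ≤ t → 0 ≤ (85386271 / 1328602500 : ℝ) * s ^ 0 * t ^ 4 + (215294963 / 26572050 : ℝ) * s ^ 1 * t ^ 3 + (18340445 / 708588 : ℝ) * s ^ 2 * t ^ 2 + (14444200 / 531441 : ℝ) * s ^ 3 * t ^ 1 + (4930000 / 531441 : ℝ) * s ^ 4 * t ^ 0 := by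
    intro s t hs ht
    positivity
  have h := key (p - (23 / 50 : ℝ)) ((1 : ℝ) - p) (by linarith) (by linarith)
  refine le_of_le_of_eq h ?_
  ring

theorem ea {p : ℝ} (h0 : (0 : ℝ) ≤ p) (h1 : p ≤ (23 / 50 : ℝ)) :
    0 ≤ 2 * (1.19 - 0.23 * p - 0.08 * p ^ 2) - 0.32 * p ^ 2 - 0.08 * p * (2.206 - 2 * p + 0.4535 * p ^ 2) - 2 := by
  have key : ∀ s t : ℝ, 0 ≤ s → 0 ≤ t → 0 ≤ (47500 / 12167 : ℝ) * s ^ 0 * t ^ 3 + (529512 / 60835 : ℝ) * s ^ 1 * t ^ 2 + (304204 / 60835 : ℝ) * s ^ 2 * t ^ 1 + (49924531 / 304175000 : ℝ) * s ^ 3 * t ^ 0 := by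
    intro s t hs ht
    positivity
  have h := key (p - (0 : ℝ)) ((23 / 50 : ℝ) - p) (by linarith) (by linarith)
  refine le_of_le_of_eq h ?_
  ring

theorem g0_0 {p : ℝ} (h0 : (0 : ℝ) ≤ p) (h1 : p ≤ (29 / 100 : ℝ)) :
    0 ≤ (1 + p) ^ 2 - 4 * p * (1.19 - 0.23 * p - 0.08 * p ^ 2) ^ 2 - 0.16 * 1.8 ^ 2 * p := by
  have key : ∀ s t : ℝ, 0 ≤ s → 0 ≤ t → 0 ≤ (10000000000 / 20511149 : ℝ) * s ^ 0 * t ^ 5 + (37869880000 / 20511149 : ℝ) * s ^ 1 * t ^ 4 + (54161973600 / 20511149 : ℝ) * s ^ 2 * t ^ 3 + (35400780300 / 20511149 : ℝ) * s ^ 3 * t ^ 2 + (244618715592 / 512778725 : ℝ) * s ^ 4 * t ^ 1 + (422210523916 / 12819468125 : ℝ) * s ^ 5 * t ^ 0 := by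
    intro s t hs ht
    positivity
  have h := key (p - (0 : ℝ)) ((29 / 100 : ℝ) - p) (by linarith) (by linarith)
  refine le_of_le_of_eq h ?_
  ring

theorem g1_0 {p : ℝ} (h0 : (0 : ℝ) ≤ p) (h1 : p ≤ (29 / 100 : ℝ)) :
    0 ≤ (1 + p) ^ 2 - 4 * p * (1.19 - 0.23 * p - 0.08 * p ^ 2) ^ 2 - 0.16 * 1.8 ^ 2 * p + (1 - (1.19 - 0.23 * p - 0.08 * p ^ 2) ^ 2 + 0.64 * (1.19 - 0.23 * p - 0.08 * p ^ 2) * p ^ 2 + 0.32 * 1.8 * p) * (2.206 - 2 * p + 0.4535 * p ^ 2) := by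
  have key : ∀ s t : ℝ, 0 ≤ s → 0 ≤ t → 0 ≤ (82083400000 / 594823321 : ℝ) * s ^ 0 * t ^ 6 + (239510316000 / 594823321 : ℝ) * s ^ 1 * t ^ 5 + (196525444325 / 594823321 : ℝ) * s ^ 2 * t ^ 4 + (47499411231 / 5948233210 : ℝ) * s ^ 3 * t ^ 3 + (39938618481 / 9517173136 : ℝ) * s ^ 4 * t ^ 2 + (359028639520747 / 2974116605000 : ℝ) * s ^ 5 * t ^ 1 + (43681799137906333 / 743529151250000 : ℝ) * s ^ 6 * t ^ 0 := by
    intro s t hs ht
    positivity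
  have h := key (p - (0 : ℝ)) ((29 / 100 : ℝ) - p) (by linarith) (by linarith)
  refine le_of_le_of_eq h ?_
  ring

theorem g0_1 {p : ℝ} (h0 : (29 / 100 : ℝ) ≤ p) (h1 : p ≤ (11 / 25 : ℝ)) :
    0 ≤ (1 + p) ^ 2 - 4 * p * (1.19 - 0.23 * p - 0.08 * p ^ 2) ^ 2 - 0.16 * 0.8 ^ 2 * p := by
  have key : ∀ s t : ℝ, 0 ≤ s → 0 ≤ t → 0 ≤ (1176210523916 / 474609375 : ℝ) * s ^ 0 * t ^ 5 + (839960668376 / 94921875 : ℝ) * s ^ 1 * t ^ 4 + (1108322293372 / 94921875 : ℝ) * s ^ 2 * t ^ 3 + (639133042192 / 94921875 : ℝ) * s ^ 3 * t ^ 2 + (136814713856 / 94921875 : ℝ) * s ^ 4 * t ^ 1 + (6414857216 / 474609375 : ℝ) * s ^ 5 * t ^ 0 := by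
    intro s t hs ht
    positivity
  have h := key (p - (29 / 100 : ℝ)) ((11 / 25 : ℝ) - p) (by linarith) (by linarith)
  refine le_of_le_of_eq h ?_
  ring

theorem g1_1 {p : ℝ} (h0 : (29 / 100 : ℝ) ≤ p) (h1 : p ≤ (11 / 25 : ℝ)) :
    0 ≤ (1 + p) ^ 2 - 4 * p * (1.19 - 0.23 * p - 0.08 * p ^ 2) ^ 2 - 0.16 * 0.8 ^ 2 * p + (1 - (1.19 - 0.23 * p - 0.08 * p ^ 2) ^ 2 + 0.64 * (1.19 - 0.23 * p - 0.08 * p ^ 2) * p ^ 2 + 0.32 * 0.8 * p) * (2.206 - 2 * p + 0.4535 * p ^ 2) := by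
  have key : ∀ s t : ℝ, 0 ≤ s → 0 ≤ t → 0 ≤ (1441634537906333 / 14238281250000 : ℝ) * s ^ 0 * t ^ 6 + (17693801878186613 / 2373046875000 : ℝ) * s ^ 1 * t ^ 5 + (38646960272625443 / 949218750000 : ℝ) * s ^ 2 * t ^ 4 + (32075079941481349 / 355957031250 : ℝ) * s ^ 3 * t ^ 3 + (5879537080936883 / 59326171875 : ℝ) * s ^ 4 * t ^ 2 + (16037871731266576 / 296630859375 : ℝ) * s ^ 5 * t ^ 1 + (10421783878146368 / 889892578125 : ℝ) * s ^ 6 * t ^ 0 := by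
    intro s t hs ht
    positivity
  have h := key (p - (29 / 100 : ℝ)) ((11 / 25 : ℝ) - p) (by linarith) (by linarith)
  refine le_of_le_of_eq h ?_
  ring

theorem g0_2 {p : ℝ} (h0 : (11 / 25 : ℝ) ≤ p) (h1 : p ≤ (23 / 50 : ℝ)) :
    0 ≤ (1 + p) ^ 2 - 4 * p * (1.19 - 0.23 * p - 0.08 * p ^ 2) ^ 2 - 0.16 * 0 ^ 2 * p := by
  have key : ∀ s t : ℝ, 0 ≤ s → 0 ≤ t → 0 ≤ (9000464288 / 625 : ℝ) * s ^ 0 * t ^ 5 + (8537131552 / 125 : ℝ) * s ^ 1 * t ^ 4 + (16205766466 / 125 : ℝ) * s ^ 2 * t ^ 3 + (15395514089 / 125 : ℝ) * s ^ 3 * t ^ 2 + (7321789428 / 125 : ℝ) * s ^ 4 * t ^ 1 + (6975015537 / 625 : ℝ) * s ^ 5 * t ^ 0 := by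
    intro s t hs ht
    positivity
  have h := key (p - (11 / 25 : ℝ)) ((23 / 50 : ℝ) - p) (by linarith) (by linarith)
  refine le_of_le_of_eq h ?_
  ring

theorem g1_2 {p : ℝ} (h0 : (11 / 25 : ℝ) ≤ p) (h1 : p ≤ (23 / 50 : ℝ)) :
    0 ≤ (1 + p) ^ 2 - 4 * p * (1.19 - 0.23 * p - 0.08 * p ^ 2) ^ 2 - 0.16 * 0 ^ 2 * p + (1 - (1.19 - 0.23 * p - 0.08 * p ^ 2) ^ 2 + 0.64 * (1.19 - 0.23 * p - 0.08 * p ^ 2) * p ^ 2 + 0.32 * 0 * p) * (2.206 - 2 * p + 0.4535 * p ^ 2) := by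
  have key : ∀ s t : ℝ, 0 ≤ s → 0 ≤ t → 0 ≤ (23443203096037 / 78125 : ℝ) * s ^ 0 * t ^ 6 + (337522227465271 / 156250 : ℝ) * s ^ 1 * t ^ 5 + (1578977279483281 / 250000 : ℝ) * s ^ 2 * t ^ 4 + (2415901106487297 / 250000 : ℝ) * s ^ 3 * t ^ 3 + (8195687231492869 / 1000000 : ℝ) * s ^ 4 * t ^ 2 + (9159810931543471 / 2500000 : ℝ) * s ^ 5 * t ^ 1 + (3380008526314613 / 5000000 : ℝ) * s ^ 6 * t ^ 0 := by
    intro s t hs ht
    positivity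
  have h := key (p - (11 / 25 : ℝ)) ((23 / 50 : ℝ) - p) (by linarith) (by linarith)
  refine le_of_le_of_eq h ?_
  ring

theorem py_0 {y : ℝ} (h0 : (0 : ℝ) ≤ y) (h1 : y ≤ (111 / 100 : ℝ)) :
    0 ≤ ((1.19 - 0.23 * y ^ 2 - 0.08 * y ^ 4) ^ 2 - (50 / 47 - 0.82) / 0.18) * (3 + 1.8 * y ^ 2) + 0.82 * 0.6366 / 0.18 * y ^ 3 := by
  have key : ∀ s t : ℝ, 0 ≤ s → 0 ≤ t → 0 ≤ (867010000000000000000 / 13345278634524373583247 : ℝ) * s ^ 0 * t ^ 10 + (8670100000000000000000 / 13345278634524373583247 : ℝ) * s ^ 1 * t ^ 9 + (3349625455400000000000 / 1482808737169374842583 : ℝ) * s ^ 2 * t ^ 8 + (17243957281060000000000 / 4448426211508124527749 : ℝ) * s ^ 3 * t ^ 7 + (18086812997693620000000 / 4448426211508124527749 : ℝ) * s ^ 4 * t ^ 6 + (5939830530367240000000 / 1482808737169374842583 : ℝ) * s ^ 5 * t ^ 5 + (20964175851545638810000 / 4448426211508124527749 : ℝ) *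 s ^ 6 * t ^ 4 + (18514219119137755240000 / 4448426211508124527749 : ℝ) * s ^ 7 * t ^ 3 + (14582356750192746092656 / 7414043685846874212915 : ℝ) * s ^ 8 * t ^ 2 + (26990062127505572467808 / 66726393172621867916235 : ℝ) * s ^ 9 * t ^ 1 + (1687519414389192501436892 / 41703995732888667447646875 : ℝ) * s ^ 10 * t ^ 0 := by
    intro s t hs ht
    positivity
  have h := key (y - (0 : ℝ)) ((111 / 100 : ℝ) - y) (by linarith) (by linarith)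
  refine le_of_le_of_eq h ?_
  ring

theorem py_1 {y : ℝ} (h0 : (111 / 100 : ℝ) ≤ y) (h1 : y ≤ (297 / 200 : ℝ)) :
    0 ≤ ((1.19 - 0.23 * y ^ 2 - 0.08 * y ^ 4) ^ 2 - (50 / 47 - 0.82) / 0.18) * (3 + 1.8 * y ^ 2) + 0.82 * 0.6366 / 0.18 * y ^ 3 := by
  have key : ∀ s t : ℝ, 0 ≤ s → 0 ≤ t → 0 ≤ (1728019880334533121471377408 / 827104747295379638671875 : ℝ) * s ^ 0 * t ^ 10 + (3456482939165131434518204416 / 165420949459075927734375 : ℝ) * s ^ 1 * t ^ 9 + (1744422882611470681729707008 / 18380105495452880859375 : ℝ) * s ^ 2 * t ^ 8 + (14417466084502407571289534464 / 55140316486358642578125 : ℝ) * s ^ 3 * t ^ 7 + (27171772929632695729841792512 / 55140316486358642578125 : ℝ) * s ^ 4 * t ^ 6 + (62105973139823742287526439424 / 91900527477264404296875 : ℝ) * s ^ 5 * t ^ 5 + (38021914929923724889762966912 / 55140316486358642578125 : ℝ) * s ^ 6 * t ^ 4 + (28384417732900553208947448064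 / 55140316486358642578125 : ℝ) * s ^ 7 * t ^ 3 + (4870097909206927737930565808 / 18380105495452880859375 : ℝ) * s ^ 8 * t ^ 2 + (13782545892557872997749411216 / 165420949459075927734375 : ℝ) * s ^ 9 * t ^ 1 + (9890395800811031995149162908 / 827104747295379638671875 : ℝ) * s ^ 10 * t ^ 0 := by
    intro s t hs ht
    positivity
  have h := key (y - (111 / 100 : ℝ)) ((297 / 200 : ℝ) - y) (by linarith) (by linarith)
  refine le_of_le_of_eq h ?_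
  ring

/-- the factor of the inflated discs -/
noncomputable def N (y : ℝ) : ℝ := 1.19 - 0.23 * y ^ 2 - 0.08 * y ^ 4

/-- the factor of the inflated discs, truncated -/
noncomputable def Np (y : ℝ) : ℝ := if y ≤ 1.485 then N y else 0

theorem N_nonneg {y : ℝ} (h0 : 0 ≤ y) (h1 : y ≤ 1.485) : 0 ≤ N y := by
  unfold N
  have h2 : y ^ 2 ≤ 1.485 ^ 2 := pow_le_pow_left₀ h0 h1 2
  have h4 : y ^ 4 ≤ 1.485 ^ 4 := pow_le_pow_left₀ h0 h1 4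
  norm_num at h2 h4 ⊢
  linarith

theorem N_anti {x y : ℝ} (h0 : 0 ≤ x) (h1 : x ≤ y) : N y ≤ N x := by
  unfold N
  have h2 : x ^ 2 ≤ y ^ 2 := pow_le_pow_left₀ h0 h1 2
  have h4 : x ^ 4 ≤ y ^ 4 := pow_le_pow_left₀ h0 h1 4
  linarith

theorem Np_nonneg {y : ℝ} (h0 : 0 ≤ y) : 0 ≤ Np y := by
  unfold Np
  split_ifs with h
  · exact N_nonneg h0 h
  · exact le_rfl

theorem Np_le {y : ℝ} : Np y ≤ 1.19 := by
  unfold Np
  split_ifs with h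
  · unfold N
    nlinarith [sq_nonneg y, sq_nonneg (y ^ 2)]
  · norm_num

theorem pair_poly {a b : ℝ} (ha : 0 ≤ a) (hb : 0 ≤ b) (ha1 : a ≤ 1.485) (hb1 : b ≤ 1.485)
    (hab : a * b ≤ 1) : (b * N a + a * N b) ^ 2 ≤ (1 + a ^ 2) * (1 + b ^ 2) := by
  obtain ⟨p, hp⟩ : ∃ p, p = a * b := ⟨_, rfl⟩
  obtain ⟨D, hD⟩ : ∃ D, D = (a - b) ^ 2 := ⟨_, rfl⟩
  have hp0 : 0 ≤ p := by rw [hp]; positivity
  have hp1 : p ≤ 1 := by rw [hp]; exact hab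
  have hD0 : 0 ≤ D := by rw [hD]; positivity
  have hDm : D ≤ 2.206 - 2 * p + 0.4535 * p ^ 2 := by
    have h2 : a ^ 2 ≤ 1.485 ^ 2 := pow_le_pow_left₀ ha ha1 2
    have h3 : b ^ 2 ≤ 1.485 ^ 2 := pow_le_pow_left₀ hb hb1 2
    have h4 : 0 ≤ (1.485 ^ 2 - a ^ 2) * (1.485 ^ 2 - b ^ 2) := mul_nonneg (by linarith) (by linarith)
    have h5 : (1.485 ^ 2 - a ^ 2) * (1.485 ^ 2 - b ^ 2) =
        1.485 ^ 4 - 1.485 ^ 2 * (D + 2 * p) + p ^ 2 := by rw [hD, hp]; ring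
    rw [h5] at h4
    norm_num at h4 ⊢
    nlinarith [sq_nonneg p]
  have hid : (1 + a ^ 2) * (1 + b ^ 2) - (b * N a + a * N b) ^ 2 =
      ((1 + p) ^ 2 - 4 * p * (1.19 - 0.23 * p - 0.08 * p ^ 2) ^ 2) +
      (1 - (1.19 - 0.23 * p - 0.08 * p ^ 2) ^ 2 + 0.64 * (1.19 - 0.23 * p - 0.08 * p ^ 2) * p ^ 2) * D +
      0.08 * p * D ^ 2 * (2 * (1.19 - 0.23 * p - 0.08 * p ^ 2) - 0.32 * p ^ 2 - 0.08 * p * D) := by
    rw [hD, hp, N, N]
    ring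
  have hgoal : 0 ≤ (1 + a ^ 2) * (1 + b ^ 2) - (b * N a + a * N b) ^ 2 := by
    rw [hid]
    rcases le_total p (23 / 50) with h | h
    · have hE : 2 ≤ 2 * (1.19 - 0.23 * p - 0.08 * p ^ 2) - 0.32 * p ^ 2 - 0.08 * p * D := by
        have h1 := ea hp0 h
        have h2 : 0.08 * p * D ≤ 0.08 * p * (2.206 - 2 * p + 0.4535 * p ^ 2) :=
          mul_le_mul_of_nonneg_left hDm (by positivity)
        linarith
      have h3 : 0.16 * p * D ^ 2 ≤ 0.08 * p * D ^ 2 *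
          (2 * (1.19 - 0.23 * p - 0.08 * p ^ 2) - 0.32 * p ^ 2 - 0.08 * p * D) := by
        have h4 := mul_le_mul_of_nonneg_left hE (show 0 ≤ 0.08 * p * D ^ 2 by positivity)
        linarith
      -- tangent at `D₀`
      have h5 : ∀ D₀ : ℝ, 0 ≤ (1 + p) ^ 2 - 4 * p * (1.19 - 0.23 * p - 0.08 * p ^ 2) ^ 2 - 0.16 * D₀ ^ 2 * p →
          0 ≤ (1 + p) ^ 2 - 4 * p * (1.19 - 0.23 * p - 0.08 * p ^ 2) ^ 2 - 0.16 * D₀ ^ 2 * p +
            (1 - (1.19 - 0.23 * p - 0.08 * p ^ 2) ^ 2 + 0.64 * (1.19 - 0.23 * p - 0.08 * p ^ 2) * p ^ 2 +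
              0.32 * D₀ * p) * (2.206 - 2 * p + 0.4535 * p ^ 2) →
          0 ≤ (1 + p) ^ 2 - 4 * p * (1.19 - 0.23 * p - 0.08 * p ^ 2) ^ 2 +
            (1 - (1.19 - 0.23 * p - 0.08 * p ^ 2) ^ 2 + 0.64 * (1.19 - 0.23 * p - 0.08 * p ^ 2) * p ^ 2) * D +
            0.16 * p * D ^ 2 := by
        intro D₀ g0 g1
        set F := (1 + p) ^ 2 - 4 * p * (1.19 - 0.23 * p - 0.08 * p ^ 2) ^ 2 with hF
        set c := (1 - (1.19 - 0.23 * p - 0.08 * p ^ 2) ^ 2 + 0.64 * (1.19 - 0.23 * p - 0.08 * p ^ 2) * p ^ 2) with hc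
        have h6 : 0 ≤ 0.16 * p * (D - D₀) ^ 2 := by positivity
        rcases le_total 0 (c + 0.32 * D₀ * p) with h7 | h7
        · have h8 := mul_nonneg h7 hD0
          linarith
        · have h8 := mul_le_mul_of_nonpos_left hDm h7
          linarith
      rcases le_total p (29 / 100) with h6 | h6
      · have := h5 1.8 (g0_0 hp0 h6) (g1_0 hp0 h6)
        linarith
      · rcases le_total p (11 / 25) with h7 | h7
        · have := h5 0.8 (g0_1 h6 h7) (g1_1 h6 h7)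
          linarith
        · have := h5 0 (g0_2 h7 h) (g1_2 h7 h)
          linarith
    · have hF : 0 ≤ (1 + p) ^ 2 - 4 * p * (1.19 - 0.23 * p - 0.08 * p ^ 2) ^ 2 := by
        rcases le_total p (43 / 50) with h1 | h1
        · exact f0a h h1
        · exact f0b h1 hp1
      have hc := mul_nonneg (c1a h hp1) hD0
      have hE : 0 ≤ 2 * (1.19 - 0.23 * p - 0.08 * p ^ 2) - 0.32 * p ^ 2 - 0.08 * p * D := by
        have h1 : D ≤ 2 := by nlinarith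
        have h2 : p * D ≤ 1 * 2 := mul_le_mul hp1 h1 hD0 (by norm_num)
        nlinarith
      have h3 := mul_nonneg (show 0 ≤ 0.08 * p * D ^ 2 by positivity) hE
      linarith
  linarith

/-- `y - arctan y ≥ y³/(3 + 1.8 y²)` -/
theorem arctan_bd {y : ℝ} (hy : 0 ≤ y) : y ^ 3 / (3 + 1.8 * y ^ 2) ≤ y - arctan y := by
  let f : ℝ → ℝ := fun y => y - arctan y - y ^ 3 / (3 + 1.8 * y ^ 2)
  have hd : ∀ x : ℝ, HasDerivAt f (1 - 1 / (1 + x ^ 2) -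
      (3 * x ^ 2 * (3 + 1.8 * x ^ 2) - x ^ 3 * (1.8 * (2 * x))) / (3 + 1.8 * x ^ 2) ^ 2) x := by
    intro x
    have h1 : HasDerivAt (fun y : ℝ => 3 + 1.8 * y ^ 2) (1.8 * (2 * x)) x := by
      have h := ((hasDerivAt_pow 2 x).const_mul (1.8 : ℝ)).const_add (3 : ℝ)
      simpa using h
    have h2 : HasDerivAt (fun y : ℝ => y ^ 3) (3 * x ^ 2) x := by
      simpa using hasDerivAt_pow 3 x
    exact ((hasDerivAt_id x).sub (Real.hasDerivAt_arctan x)).sub (h2.div h1 (by positivity))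
  have hm : MonotoneOn f (Set.Ici 0) := by
    refine monotoneOn_of_deriv_nonneg (convex_Ici 0) (fun x _ => (hd x).continuousAt.continuousWithinAt)
      (fun x _ => (hd x).differentiableAt.differentiableWithinAt) ?_
    intro x _
    rw [(hd x).deriv]
    have h1 : 1 - 1 / (1 + x ^ 2) - (3 * x ^ 2 * (3 + 1.8 * x ^ 2) - x ^ 3 * (1.8 * (2 * x))) / (3 + 1.8 * x ^ 2) ^ 2 =
        (1.44 * x ^ 6) / ((1 + x ^ 2) * (3 + 1.8 * x ^ 2) ^ 2) := by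
      field_simp
      ring
    rw [h1]
    positivity
  have h := hm Set.self_mem_Ici (show y ∈ Set.Ici (0 : ℝ) from hy) hy
  simp only [f] at h
  norm_num at h
  linarith

/-- the inequality for one disc -/
theorem bracket {y : ℝ} (h0 : 0 ≤ y) :
    50 / 47 * π ≤ 0.82 * (π + 2 * (y - arctan y)) + 0.18 * (π * Np y ^ 2) := by
  have hpi := Real.pi_pos
  have hpi2 : π < 3.1416 := Real.pi_lt_d4
  have hb := arctan_bd h0
  have hz : 0 ≤ y ^ 3 / (3 + 1.8 * y ^ 2) := by positivity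
  -- `2 z ≥ 0.6366 π z`
  have h2 : 0.6366 * π * (y ^ 3 / (3 + 1.8 * y ^ 2)) ≤ 2 * (y ^ 3 / (3 + 1.8 * y ^ 2)) :=
    mul_le_mul_of_nonneg_right (by linarith) hz
  have h3 : 50 / 47 ≤ 0.82 * (1 + 0.6366 * (y ^ 3 / (3 + 1.8 * y ^ 2))) + 0.18 * Np y ^ 2 := by
    unfold Np
    have hpos : 0 < 3 + 1.8 * y ^ 2 := by positivity
    split_ifs with h
    · have hP : 0 ≤ ((1.19 - 0.23 * y ^ 2 - 0.08 * y ^ 4) ^ 2 - (50 / 47 - 0.82) / 0.18) * (3 + 1.8 * y ^ 2) +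
          0.82 * 0.6366 / 0.18 * y ^ 3 := by
        rcases le_total y (111 / 100) with h4 | h4
        · exact py_0 h0 h4
        · exact py_1 h4 (by norm_num at h ⊢; exact h)
      have h5 : 0.82 * (1 + 0.6366 * (y ^ 3 / (3 + 1.8 * y ^ 2))) + 0.18 * N y ^ 2 - 50 / 47 =
          0.18 * ((((1.19 - 0.23 * y ^ 2 - 0.08 * y ^ 4) ^ 2 - (50 / 47 - 0.82) / 0.18) * (3 + 1.8 * y ^ 2) +
            0.82 * 0.6366 / 0.18 * y ^ 3) / (3 + 1.8 * y ^ 2)) := by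
        rw [N]
        field_simp
        ring
      have h6 := div_nonneg hP hpos.le
      linarith
    · push Not at h
      have h7 : 0.4698 ≤ y ^ 3 / (3 + 1.8 * y ^ 2) := by
        rw [le_div_iff₀ hpos]
        have h8 : (1.485 : ℝ) * y ^ 2 ≤ y ^ 3 := by nlinarith [sq_nonneg y]
        have h9 : (1.485 : ℝ) ^ 2 ≤ y ^ 2 := pow_le_pow_left₀ (by norm_num) h.le 2
        norm_num at h9 h8 ⊢
        linarith
      norm_num at h7 ⊢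
      linarith
  have h4 := mul_le_mul_of_nonneg_right h3 hpi.le
  nlinarith

/-- the inequality for two discs -/
theorem pair_le {ρ r d : ℝ} (hρ : 0 < ρ) (hr : 0 < r) (hd : ρ + r ≤ d) {Y₁ Y₂ : ℝ}
    (h1 : min (3 / 2) (tau d ρ r / ρ) ≤ Y₁) (h2 : min (3 / 2) (tau d ρ r / r) ≤ Y₂) :
    Np Y₁ = 0 ∨ Np Y₂ = 0 ∨ ρ * Np Y₁ + r * Np Y₂ ≤ d := by
  by_cases g1 : Y₁ ≤ 1.485
  swap
  · left
    rw [Np, if_neg g1]
  by_cases g2 : Y₂ ≤ 1.485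
  swap
  · right; left
    rw [Np, if_neg g2]
  right; right
  have k1 : tau d ρ r / ρ ≤ Y₁ := by
    rcases min_le_iff.1 h1 with h | h
    · norm_num at g1; linarith
    · exact h
  have k2 : tau d ρ r / r ≤ Y₂ := by
    rcases min_le_iff.1 h2 with h | h
    · norm_num at g2; linarith
    · exact h
  obtain ⟨t0, t1, t2⟩ := tau_facts hρ hr hd
  set τ := tau d ρ r
  have a0 : 0 ≤ τ / ρ := by positivity
  have b0 : 0 ≤ τ / r := by positivity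
  have hab : τ / ρ * (τ / r) ≤ 1 := by
    rw [div_mul_div_comm, div_le_one (by positivity)]
    nlinarith
  have hp := pair_poly a0 b0 (k1.trans g1) (k2.trans g2) hab
  have hn1 := N_anti a0 k1
  have hn2 := N_anti b0 k2
  rw [Np, if_pos g1, Np, if_pos g2]
  have h3 : ρ * N Y₁ + r * N Y₂ ≤ ρ * N (τ / ρ) + r * N (τ / r) := by
    have := mul_le_mul_of_nonneg_left hn1 hρ.le
    have := mul_le_mul_of_nonneg_left hn2 hr.le
    linarith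
  refine h3.trans ?_
  have h4 : (ρ * N (τ / ρ) + r * N (τ / r)) ^ 2 ≤ d ^ 2 := by
    have e1 : (ρ * N (τ / ρ) + r * N (τ / r)) ^ 2 =
        (τ / r * N (τ / ρ) + τ / ρ * N (τ / r)) ^ 2 * (ρ * r / τ) ^ 2 := by
      field_simp
    have e2 : d ^ 2 = (1 + (τ / ρ) ^ 2) * (1 + (τ / r) ^ 2) * (ρ * r / τ) ^ 2 := by
      have : d ^ 2 = (τ ^ 2 + ρ ^ 2) * (τ ^ 2 + r ^ 2) / τ ^ 2 := by
        rw [← t2]; field_simp
      rw [this]
      field_simp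
      ring
    rw [e1, e2]
    exact mul_le_mul_of_nonneg_right hp (by positivity)
  exact abs_le_of_sq_le_sq' h4 (by linarith) |>.2

end Pool.Agent.H79.TG
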