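import Pool.Agent.H79.TG.Ear

/-!
MP_887a8d_co.  Two discs: points of the cell of the first one.
-/

set_option autoImplicit false

namespace Pool.Agent.H79.TG

open MeasureTheory Real Metric Pool.Agent.H79.TS

/-- half the difference of the lengths of the outer and the inner common tangents -/
noncomputable def tau (d ρ r : ℝ) : ℝ := (√(d ^ 2 - (ρ - r) ^ 2) - √(d ^ 2 - (ρ + r) ^ 2)) / 2

theorem tau_comm (d ρ r : ℝ) : tau d ρ r = tau d r ρ := by
  unfold tau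
  rw [show (ρ - r) ^ 2 = (r - ρ) ^ 2 by ring, add_comm ρ r]

theorem tau_facts {d ρ r : ℝ} (hρ : 0 < ρ) (hr : 0 < r) (hd : ρ + r ≤ d) :
    0 < tau d ρ r ∧ tau d ρ r ^ 2 ≤ ρ * r ∧
      d ^ 2 * tau d ρ r ^ 2 = (tau d ρ r ^ 2 + ρ ^ 2) * (tau d ρ r ^ 2 + r ^ 2) := by
  have h1 : 0 ≤ d ^ 2 - (ρ + r) ^ 2 := by nlinarith
  have h2 : 0 < d ^ 2 - (ρ - r) ^ 2 := by nlinarith [mul_pos hρ hr]
  have e1 := Real.sq_sqrt h1
  have e2 := Real.sq_sqrt h2.le
  have p1 := Real.sqrt_nonneg (d ^ 2 - (ρ + r) ^ 2)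
  have p2 := Real.sqrt_pos.2 h2
  have hlt : √(d ^ 2 - (ρ + r) ^ 2) < √(d ^ 2 - (ρ - r) ^ 2) := by
    apply Real.sqrt_lt_sqrt h1
    nlinarith [mul_pos hρ hr]
  unfold tau
  set I := √(d ^ 2 - (ρ + r) ^ 2)
  set L := √(d ^ 2 - (ρ - r) ^ 2)
  have hLI : (L - I) * (L + I) = 4 * (ρ * r) := by nlinarith
  refine ⟨by linarith, ?_, ?_⟩
  · nlinarith
  · have hd2 : d ^ 2 = I ^ 2 + (ρ + r) ^ 2 := by linarith
    rw [hd2]
    have hL2 : L ^ 2 = I ^ 2 + 4 * (ρ * r) := by linarith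
    have hL3 : L ^ 3 = L * (I ^ 2 + 4 * (ρ * r)) := by rw [← hL2]; ring
    have hL4 : L ^ 4 = (I ^ 2 + 4 * (ρ * r)) ^ 2 := by rw [← hL2]; ring
    ring_nf
    rw [hL4, hL3, hL2]
    ring

theorem norm_ew {e : E} (he : ‖e‖ = 1) (x y : ℝ) :
    ‖x • e + y • (WithLp.toLp 2 ![- e 1, e 0] : E)‖ ^ 2 = x ^ 2 + y ^ 2 := by
  have h : e 0 ^ 2 + e 1 ^ 2 = 1 := by rw [← nsq, he]; norm_num
  rw [nsq]
  simp only [PiLp.add_apply, PiLp.smul_apply, smul_eq_mul, Matrix.cons_val_zero,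
    Matrix.cons_val_one]
  linear_combination (x ^ 2 + y ^ 2) * h

theorem mem_of_norm {c e : E} (he : ‖e‖ = 1) {x y ρ : ℝ} (hρ : 0 ≤ ρ) (h : x ^ 2 + y ^ 2 ≤ ρ ^ 2) :
    c + (x • e + y • (WithLp.toLp 2 ![- e 1, e 0] : E)) ∈ closedBall c ρ := by
  rw [mem_closedBall, dist_eq_norm, add_sub_cancel_left, ← sq_le_sq₀ (norm_nonneg _) hρ, norm_ew he]
  exact h

/-- one corner (`σ = 1` or `σ = -1`) -/
theorem corner_mem {c c' e : E} {d ρ r σ : ℝ} (he : ‖e‖ = 1) (hc' : c' = c + d • e) (hρ : 0 < ρ)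
    (hr : 0 < r) (hd : ρ + r ≤ d) (hσ : σ ^ 2 = 1) {n : E} {t : ℝ} (hn : n ≠ 0)
    (hK : closedBall c ρ ⊆ {x | inner ℝ n x ≤ t})
    (hD : closedBall c' r ⊆ {x | inner ℝ n x ≤ t} ∨ closedBall c' r ⊆ {x | t ≤ inner ℝ n x}) :
    inner ℝ n (c + (((ρ * (ρ - r) + tau d ρ r * √(d ^ 2 - (ρ - r) ^ 2)) / d) • e +
      (σ * ((ρ * √(d ^ 2 - (ρ - r) ^ 2) - tau d ρ r * (ρ - r)) / d)) •
        (WithLp.toLp 2 ![- e 1, e 0] : E))) ≤ t := by
  obtain ⟨ht0, ht1, ht2⟩ := tau_facts hρ hr hd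
  have hd0 : 0 < d := by linarith
  have h1 : 0 ≤ d ^ 2 - (ρ + r) ^ 2 := by nlinarith
  have h2 : 0 < d ^ 2 - (ρ - r) ^ 2 := by nlinarith [mul_pos hρ hr]
  have e1 := Real.sq_sqrt h1
  have e2 := Real.sq_sqrt h2.le
  have p1 := Real.sqrt_nonneg (d ^ 2 - (ρ + r) ^ 2)
  have p2 := Real.sqrt_pos.2 h2
  have htL : tau d ρ r = (√(d ^ 2 - (ρ - r) ^ 2) - √(d ^ 2 - (ρ + r) ^ 2)) / 2 := rfl
  set I := √(d ^ 2 - (ρ + r) ^ 2) with hI
  set L := √(d ^ 2 - (ρ - r) ^ 2) with hL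
  set τ := tau d ρ r with hτ
  have hw := he
  set w : E := (WithLp.toLp 2 ![- e 1, e 0] : E) with hwd
  have hLI : L ^ 2 = I ^ 2 + 4 * (ρ * r) := by nlinarith
  have hII : I = L - 2 * τ := by linarith
  have hdL : d ^ 2 = L ^ 2 + (ρ - r) ^ 2 := by linarith
  rcases hD with hD | hD
  · -- convex combination of the points on the outer tangent
    have hP : inner ℝ n (c + ((ρ * (ρ - r) / d) • e + (σ * (ρ * L / d)) • w)) ≤ t := by
      apply hK
      apply mem_of_norm he hρ.le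
      have : (ρ * (ρ - r) / d) ^ 2 + (σ * (ρ * L / d)) ^ 2 = ρ ^ 2 * (((ρ - r) ^ 2 + σ ^ 2 * L ^ 2) / d ^ 2) := by
        field_simp
      rw [this, hσ, hdL, one_mul, add_comm, div_self (by positivity), mul_one]
    have hQ : inner ℝ n (c' + ((r * (ρ - r) / d) • e + (σ * (r * L / d)) • w)) ≤ t := by
      apply hD
      apply mem_of_norm he hr.le
      have : (r * (ρ - r) / d) ^ 2 + (σ * (r * L / d)) ^ 2 = r ^ 2 * (((ρ - r) ^ 2 + σ ^ 2 * L ^ 2) / d ^ 2) := by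
        field_simp
      rw [this, hσ, hdL, one_mul, add_comm, div_self (by positivity), mul_one]
    rw [hc'] at hQ
    simp only [inner_add_right, inner_smul_right] at hP hQ ⊢
    have hs0 : 0 ≤ τ / L := by positivity
    have hs1 : 0 ≤ 1 - τ / L := by
      rw [sub_nonneg, div_le_one p2]; linarith
    have h3 := add_le_add (mul_le_mul_of_nonneg_left hP hs1) (mul_le_mul_of_nonneg_left hQ hs0)
    have h4 : (1 - τ / L) * t + τ / L * t = t := by ring
    rw [h4] at h3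
    refine le_trans (le_of_eq ?_) h3
    have x1 : (ρ * (ρ - r) + τ * L) / d = (1 - τ / L) * (ρ * (ρ - r) / d) + τ / L * (d + r * (ρ - r) / d) := by
      field_simp
      rw [hdL]
      ring
    have y1 : σ * ((ρ * L - τ * (ρ - r)) / d) = (1 - τ / L) * (σ * (ρ * L / d)) + τ / L * (σ * (r * L / d)) := by
      field_simp
      ring
    rw [x1, y1]
    ring
  · -- the point `T_K` is between `q` and `T_D`
    have x2 : (ρ * (ρ - r) + τ * L) / d = (ρ * (ρ + r) - τ * I) / d := by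
      congr 1
      have : τ * (L + I) = 2 * (ρ * r) := by
        rw [hII]; nlinarith
      nlinarith
    have y2 : (ρ * L - τ * (ρ - r)) / d = (ρ * I + τ * (ρ + r)) / d := by
      congr 1
      rw [hII]; ring
    rw [x2, y2]
    have hdI : d ^ 2 = I ^ 2 + (ρ + r) ^ 2 := by linarith
    rcases p1.lt_or_eq with hI0 | hI0
    · have hP : inner ℝ n (c + ((ρ * (ρ + r) / d) • e + (σ * (ρ * I / d)) • w)) ≤ t := by
        apply hK
        apply mem_of_norm he hρ.le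
        have : (ρ * (ρ + r) / d) ^ 2 + (σ * (ρ * I / d)) ^ 2 = ρ ^ 2 * (((ρ + r) ^ 2 + σ ^ 2 * I ^ 2) / d ^ 2) := by
          field_simp
        rw [this, hσ, hdI, one_mul, add_comm, div_self (by positivity), mul_one]
      have hQ : t ≤ inner ℝ n (c' + ((-(r * (ρ + r) / d)) • e + (σ * (-(r * I / d))) • w)) := by
        apply hD
        apply mem_of_norm he hr.le
        have : (-(r * (ρ + r) / d)) ^ 2 + (σ * (-(r * I / d))) ^ 2 = r ^ 2 * (((ρ + r) ^ 2 + σ ^ 2 * I ^ 2) / d ^ 2) := by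
          field_simp
        rw [this, hσ, hdI, one_mul, add_comm, div_self (by positivity), mul_one]
      rw [hc'] at hQ
      simp only [inner_add_right, inner_smul_right] at hP hQ ⊢
      have h3 : (1 + τ / I) * (inner ℝ n c + (ρ * (ρ + r) / d * inner ℝ n e + σ * (ρ * I / d) * inner ℝ n w)) -
          τ / I * (inner ℝ n c + d * inner ℝ n e + (-(r * (ρ + r) / d) * inner ℝ n e +
            σ * (-(r * I / d)) * inner ℝ n w)) ≤ (1 + τ / I) * t - τ / I * t :=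
        sub_le_sub (mul_le_mul_of_nonneg_left hP (by positivity))
          (mul_le_mul_of_nonneg_left hQ (by positivity))
      have h4 : (1 + τ / I) * t - τ / I * t = t := by ring
      rw [h4] at h3
      refine le_trans (le_of_eq ?_) h3
      have x1 : (ρ * (ρ + r) - τ * I) / d = (1 + τ / I) * (ρ * (ρ + r) / d) - τ / I * (d - r * (ρ + r) / d) := by
        field_simp
        rw [hdI]
        ring
      have y1 : σ * ((ρ * I + τ * (ρ + r)) / d) = (1 + τ / I) * (σ * (ρ * I / d)) - τ / I * (σ * (-(r * I / d))) := by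
        field_simp
        ring
      rw [x1, y1]
      ring
    · -- touching discs
      rw [← hI0] at hdI ⊢
      have hdr : d = ρ + r := by nlinarith
      have hb := ball_le hn hρ.le hK
      have hQ : t ≤ inner ℝ n (c' + ((-r) • e + (0 : ℝ) • w)) := by
        apply hD
        apply mem_of_norm he hr.le
        nlinarith
      rw [hc'] at hQ
      simp only [inner_add_right, inner_smul_right] at hQ ⊢
      have hen : inner ℝ n e = ‖n‖ := by
        have h5 : inner ℝ n e ≤ ‖n‖ := by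
          have := real_inner_le_norm n e
          rwa [he, mul_one] at this
        have h6 : ρ * ‖n‖ ≤ ρ * inner ℝ n e := by rw [hdr] at hQ; linarith
        exact le_antisymm h5 (le_of_mul_le_mul_left h6 hρ)
      have hwn : inner ℝ n w = (0 : ℝ) := by
        have h7 := lagr1 he n
        have h8 : inner ℝ e n = (‖n‖ : ℝ) := by rw [real_inner_comm]; exact hen
        rw [h8] at h7
        have h9 : dt e n = 0 := by
          have : dt e n ^ 2 = 0 := by linarith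
          exact pow_eq_zero_iff (two_ne_zero) |>.1 this
        have h10 : inner ℝ n w = dt e n := by
          rw [inner_two, hwd]
          simp only [Matrix.cons_val_zero, Matrix.cons_val_one, dt]
          ring
        rw [h10, h9]
      have h11 : (ρ * (ρ + r) - τ * 0) / d = ρ := by
        rw [hdr, mul_zero, sub_zero, mul_div_assoc, div_self (by positivity), mul_one]
      have h12 : ∀ z : ℝ, z * (0 : ℝ) = 0 := fun z => mul_zero z
      rw [h11, hwn, hen, h12, add_zero]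
      exact hb

/-- two points of the cell of a disc -/
theorem corner {c c' : E} {ρ r : ℝ} (hρ : 0 < ρ) (hr : 0 < r) (hd : ρ + r ≤ dist c c') :
    ∃ u v : E, ‖u‖ = 1 ∧ ‖v‖ = 1 ∧
      (ρ ^ 2 + tau (dist c c') ρ r ^ 2) * inner ℝ u v ≤ ρ ^ 2 - tau (dist c c') ρ r ^ 2 ∧
      ∀ (n : E) (t : ℝ), n ≠ 0 → closedBall c ρ ⊆ {x | inner ℝ n x ≤ t} →
        (closedBall c' r ⊆ {x | inner ℝ n x ≤ t} ∨ closedBall c' r ⊆ {x | t ≤ inner ℝ n x}) →
        inner ℝ n (c + √(ρ ^ 2 + tau (dist c c') ρ r ^ 2) • u) ≤ t ∧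
        inner ℝ n (c + √(ρ ^ 2 + tau (dist c c') ρ r ^ 2) • v) ≤ t := by
  set d := dist c c' with hdd
  have hd0 : 0 < d := by linarith
  obtain ⟨ht0, ht1, ht2⟩ := tau_facts hρ hr hd
  have h1 : 0 ≤ d ^ 2 - (ρ + r) ^ 2 := by nlinarith
  have h2 : 0 < d ^ 2 - (ρ - r) ^ 2 := by nlinarith [mul_pos hρ hr]
  have e1 := Real.sq_sqrt h1
  have e2 := Real.sq_sqrt h2.le
  have p1 := Real.sqrt_nonneg (d ^ 2 - (ρ + r) ^ 2)
  have p2 := Real.sqrt_pos.2 h2
  have htL : tau d ρ r = (√(d ^ 2 - (ρ - r) ^ 2) - √(d ^ 2 - (ρ + r) ^ 2)) / 2 := rfl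
  obtain ⟨e, he, hc'⟩ : ∃ e : E, ‖e‖ = 1 ∧ c' = c + d • e := by
    refine ⟨(1 / d) • (c' - c), ?_, ?_⟩
    · rw [norm_smul, Real.norm_eq_abs, abs_of_pos (one_div_pos.2 hd0)]
      rw [← dist_eq_norm, dist_comm, ← hdd]
      field_simp
    · rw [smul_smul, mul_one_div_cancel hd0.ne', one_smul]; abel
  set τ := tau d ρ r with hτ
  set L := √(d ^ 2 - (ρ - r) ^ 2) with hL
  set I := √(d ^ 2 - (ρ + r) ^ 2) with hI
  set w : E := (WithLp.toLp 2 ![- e 1, e 0] : E) with hwd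
  set X := (ρ * (ρ - r) + τ * L) / d with hX
  set Y := (ρ * L - τ * (ρ - r)) / d with hY
  have hXY : X ^ 2 + Y ^ 2 = ρ ^ 2 + τ ^ 2 := by
    have hdL : d ^ 2 = L ^ 2 + (ρ - r) ^ 2 := by linarith
    have : X ^ 2 + Y ^ 2 = (ρ ^ 2 + τ ^ 2) * ((L ^ 2 + (ρ - r) ^ 2) / d ^ 2) := by
      rw [hX, hY]; field_simp; ring
    rw [this, ← hdL, div_self (by positivity), mul_one]
  have hs : 0 < √(ρ ^ 2 + τ ^ 2) := Real.sqrt_pos.2 (by positivity)
  have hss : √(ρ ^ 2 + τ ^ 2) ^ 2 = ρ ^ 2 + τ ^ 2 := Real.sq_sqrt (by positivity)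
  have hnu : ∀ y : ℝ, y ^ 2 = Y ^ 2 → ‖(1 / √(ρ ^ 2 + τ ^ 2)) • (X • e + y • w)‖ = 1 := by
    intro y hy
    rw [norm_smul, Real.norm_eq_abs, abs_of_pos (by positivity)]
    have h3 : ‖X • e + y • w‖ = √(ρ ^ 2 + τ ^ 2) := by
      rw [← hXY, ← hy, ← norm_ew he X y, Real.sqrt_sq (norm_nonneg _)]
    rw [h3]; field_simp
  have hII : I = L - 2 * τ := by linarith
  have hLI : L ^ 2 = I ^ 2 + 4 * (ρ * r) := by nlinarith
  have hX2 : X = (ρ * (ρ + r) - τ * I) / d := by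
    rw [hX]; congr 1
    have : τ * (L + I) = 2 * (ρ * r) := by rw [hII]; nlinarith
    nlinarith
  have hXu : X ≤ ρ := by
    rw [hX2, div_le_iff₀ hd0]
    nlinarith [mul_nonneg ht0.le p1]
  have hXl : -ρ ≤ X := by
    rw [hX, le_div_iff₀ hd0]
    nlinarith [mul_pos ht0 p2, mul_pos hρ hd0, mul_pos hρ hρ]
  refine ⟨(1 / √(ρ ^ 2 + τ ^ 2)) • (X • e + Y • w), (1 / √(ρ ^ 2 + τ ^ 2)) • (X • e + (-Y) • w),
    hnu Y rfl, hnu (-Y) (by ring), ?_, ?_⟩
  · have h4 : inner ℝ ((1 / √(ρ ^ 2 + τ ^ 2)) • (X • e + Y • w)) ((1 / √(ρ ^ 2 + τ ^ 2)) • (X • e + (-Y) • w)) =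
        (X ^ 2 - Y ^ 2) / (ρ ^ 2 + τ ^ 2) := by
      rw [inner_smul_left, inner_smul_right]
      have h5 : inner ℝ (X • e + Y • w) (X • e + (-Y) • w) = X ^ 2 - Y ^ 2 := by
        have h6 : e 0 ^ 2 + e 1 ^ 2 = 1 := by rw [← nsq, he]; norm_num
        rw [inner_two, hwd]
        simp only [PiLp.add_apply, PiLp.smul_apply, smul_eq_mul, Matrix.cons_val_zero,
          Matrix.cons_val_one]
        linear_combination (X ^ 2 - Y ^ 2) * h6
      rw [h5]
      simp only [RCLike.conj_to_real]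
      have h7 : 1 / √(ρ ^ 2 + τ ^ 2) * (1 / √(ρ ^ 2 + τ ^ 2) * (X ^ 2 - Y ^ 2)) =
          (X ^ 2 - Y ^ 2) / √(ρ ^ 2 + τ ^ 2) ^ 2 := by
        field_simp
      rw [h7, hss]
    have hX3 : X ^ 2 ≤ ρ ^ 2 := sq_le_sq' hXl hXu
    rw [h4, mul_div_cancel₀ _ (by positivity)]
    linarith
  · intro n t hn hK hD
    have k1 := corner_mem (σ := 1) he hc' hρ hr hd (by norm_num) hn hK hD
    have k2 := corner_mem (σ := -1) he hc' hρ hr hd (by norm_num) hn hK hD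
    rw [smul_smul, smul_smul, mul_one_div_cancel hs.ne', one_smul, one_smul]
    constructor
    · rw [one_mul] at k1
      exact k1
    · rw [neg_one_mul] at k2
      exact k2

/-- the area of a convex set that contains a disc and the two points -/
theorem ear {C : Set E} (hC : Convex ℝ C) {c u v : E} (hu : ‖u‖ = 1) (hv : ‖v‖ = 1) {ρ τ y : ℝ}
    (hρ : 0 < ρ) (hτ : 0 < τ) (hK : closedBall c ρ ⊆ C)
    (hy0 : 0 < y) (hy : y * ρ ≤ τ)
    (hq : c + (ρ * √(1 + y ^ 2)) • u ∈ C) (hq' : c + (ρ * √(1 + y ^ 2)) • v ∈ C)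
    (huv : (ρ ^ 2 + τ ^ 2) * inner ℝ u v ≤ ρ ^ 2 - τ ^ 2) :
    ENNReal.ofReal (ρ ^ 2 * (π + 2 * (y - arctan y))) ≤ volume C := by
  have hb0 : 0 < arctan y := by rw [← Real.arctan_zero]; exact Real.arctan_strictMono hy0
  have hb1 := Real.arctan_lt_pi_div_two y
  have hcos : cos (arctan y) = 1 / √(1 + y ^ 2) := Real.cos_arctan y
  have e1 : ρ / cos (arctan y) = ρ * √(1 + y ^ 2) := by rw [hcos]; field_simp
  have h := ear_pos hC hu hv hρ hb0 hb1 hK (by rw [e1]; exact hq) (by rw [e1]; exact hq') ?_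
  · rwa [Real.tan_arctan] at h
  · rw [Real.cos_two_mul, hcos, div_pow, Real.sq_sqrt (by positivity), one_pow]
    have h2 : (ρ ^ 2 + τ ^ 2) * inner ℝ u v ≤ (ρ ^ 2 + τ ^ 2) * (2 * (1 / (1 + y ^ 2)) - 1) := by
      refine huv.trans ?_
      have h3 : (y * ρ) ^ 2 ≤ τ ^ 2 := pow_le_pow_left₀ (by positivity) hy 2
      have h4 : (ρ ^ 2 + τ ^ 2) * (2 * (1 / (1 + y ^ 2)) - 1) = (ρ ^ 2 + τ ^ 2) * (1 - y ^ 2) / (1 + y ^ 2) := by
        field_simp; ring
      rw [h4, le_div_iff₀ (by positivity)]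
      nlinarith
    exact le_of_mul_le_mul_left h2 (by positivity)

end Pool.Agent.H79.TG
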